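import Pool.Agent.H86.GZ.GSM
import Pool.Agent.H34.GM.Targets2

/-!
Page ghk: the decomposition `w = u a`, `u` orthogonal, `a` upper triangular with positive diagonal,
and the power function of a product `z a`.
-/

namespace Pool.Agent.H69.GK

open MeasureTheory Pool.Agent.H34.GM Pool.Agent.H34.GZ Pool.Agent.H86.GZ

/-- the decomposition -/
theorem exists_qr {m : ℕ} (w : Mat m) (hw : w.det ≠ 0) : ∃ u a : Mat m,
    u * u.transpose = 1 ∧ w = u * a ∧ (∀ i j : Fin m, j < i → a i j = 0) ∧ ∀ i, 0 < a i i := by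
  have hpos : ∀ j, 0 < ‖oc w j‖ := (pf_GSM m w).2.2.2.1 hw
  have hui : ∀ i j : Fin m, inner ℝ (oc w i) (oc w j) = ∑ k, oc w i k * oc w j k := by
    intro i j
    rw [PiLp.inner_apply]
    refine Finset.sum_congr rfl fun k _ => ?_
    simp [mul_comm]
  let u : Mat m := Matrix.of fun i k => oc w k i / ‖oc w k‖
  let a : Mat m := Matrix.of fun k j => ‖oc w k‖ * gU w k j
  have hu : u.transpose * u = 1 := by
    ext i j
    rw [Matrix.mul_apply]
    have h1 : ∀ k, u.transpose i k * u k j = (oc w i k * oc w j k) / (‖oc w i‖ * ‖oc w j‖) := by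
      intro k
      change oc w i k / ‖oc w i‖ * (oc w j k / ‖oc w j‖) = _
      rw [div_mul_div_comm]
    rw [Finset.sum_congr rfl fun k _ => h1 k, ← Finset.sum_div, ← hui]
    by_cases hij : i = j
    · subst hij
      rw [Matrix.one_apply_eq, real_inner_self_eq_norm_mul_norm]
      exact div_self (mul_pos (hpos i) (hpos i)).ne'
    · rw [Matrix.one_apply_ne hij, oc_orth w hij, zero_div]
  refine ⟨u, a, mul_eq_one_comm.mp hu, ?_, ?_, ?_⟩
  · ext i j
    have h1 : col w j i = ∑ k, gU w k j * oc w k i := by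
      have h2 := congrArg (fun v : EuclideanSpace ℝ (Fin m) => v i) (col_eq w j)
      simpa using h2
    have h2 : w i j = ∑ k, gU w k j * oc w k i := h1
    rw [h2, Matrix.mul_apply]
    refine Finset.sum_congr rfl fun k _ => ?_
    change _ = oc w k i / ‖oc w k‖ * (‖oc w k‖ * gU w k j)
    have := (hpos k).ne'
    field_simp
  · intro i j hij
    change ‖oc w i‖ * gU w i j = 0
    rw [gU_gt w hij, mul_zero]
  · intro i
    change 0 < ‖oc w i‖ * gU w i i
    rw [gU_self, mul_one]
    exact hpos i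

/-- the leading minors of `zᵀ z` for a product with an upper triangular matrix -/
theorem mnr_mul_tri {m : ℕ} (z a : Mat m) (ha : ∀ i j : Fin m, j < i → a i j = 0) {J : ℕ}
    (hJ : J ≤ m) : mnr (z * a) J = mnr z J * mnr a J := by
  have key : ∀ y : Mat m, mnr (y * a) J =
      mnr y J * ((a.submatrix (Fin.castLE hJ) (Fin.castLE hJ)).det) ^ 2 := by
    intro y
    have h1 : ((y * a).transpose * (y * a)).submatrix (Fin.castLE hJ) (Fin.castLE hJ) =
        (a.submatrix (Fin.castLE hJ) (Fin.castLE hJ)).transpose *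
          ((y.transpose * y).submatrix (Fin.castLE hJ) (Fin.castLE hJ)) *
            (a.submatrix (Fin.castLE hJ) (Fin.castLE hJ)) := by
      have h2 : (y * a).transpose * (y * a) = a.transpose * (y.transpose * y) * a := by
        rw [Matrix.transpose_mul]
        simp only [Matrix.mul_assoc]
      rw [h2]
      ext i j
      have hcut : ∀ (f : Fin m → ℝ) (l : Fin J), (∀ k : Fin m, Fin.castLE hJ l < k → f k = 0) →
          ∑ k : Fin m, f k = ∑ k : Fin J, f (Fin.castLE hJ k) := by
        intro f l hf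
        have h3 : ∑ k ∈ Finset.univ.map (Fin.castLEEmb hJ), f k =
            ∑ k : Fin J, f (Fin.castLE hJ k) := Finset.sum_map Finset.univ (Fin.castLEEmb hJ) _
        rw [← h3]
        symm
        refine Finset.sum_subset (Finset.subset_univ _) fun k _ hk => hf k ?_
        by_contra hcon
        apply hk
        rw [Finset.mem_map]
        have h4 : (k : ℕ) ≤ l := not_lt.1 hcon
        exact ⟨⟨k, lt_of_le_of_lt h4 l.2⟩, Finset.mem_univ _, by ext; rfl⟩
      rw [Matrix.submatrix_apply, Matrix.mul_apply, Matrix.mul_apply]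
      rw [hcut _ j fun k hk => by rw [ha k _ hk, mul_zero]]
      refine Finset.sum_congr rfl fun k _ => ?_
      rw [Matrix.submatrix_apply, Matrix.mul_apply, Matrix.mul_apply]
      rw [hcut _ i fun k' hk => by rw [Matrix.transpose_apply, ha k' _ hk, zero_mul]]
      rfl
    unfold mnr
    rw [dif_pos hJ, dif_pos hJ, h1, Matrix.det_mul, Matrix.det_mul, Matrix.det_transpose]
    ring
  have h1 := key 1
  have h2 : mnr (1 : Mat m) J = 1 := by
    unfold mnr
    rw [dif_pos hJ, Matrix.transpose_one, Matrix.one_mul]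
    have : (1 : Mat m).submatrix (Fin.castLE hJ) (Fin.castLE hJ) = 1 :=
      Matrix.submatrix_one _ (Fin.castLE_injective hJ)
    rw [this, Matrix.det_one]
  rw [Matrix.one_mul, h2, one_mul] at h1
  rw [key z, h1]

theorem mnr_orth {m : ℕ} {u : Mat m} (hu : u * u.transpose = 1) (z : Mat m) (J : ℕ) :
    mnr (u * z) J = mnr z J := by
  have hu2 : u.transpose * u = 1 := mul_eq_one_comm.mp hu
  have h1 : (u * z).transpose * (u * z) = z.transpose * z := by
    rw [Matrix.transpose_mul, Matrix.mul_assoc, ← Matrix.mul_assoc u.transpose, hu2,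
      Matrix.one_mul]
  unfold mnr
  rw [h1]

theorem pw_orth {m : ℕ} (mu : Fin m → ℂ) {u : Mat m} (hu : u * u.transpose = 1) (z : Mat m) :
    pw mu (u * z) = pw mu z := by
  unfold pw
  simp only [mnr_orth hu]

lemma mnr_pos' {m : ℕ} {z : Mat m} (hz : z.det ≠ 0) {j : ℕ} (hj : j ≤ m) : 0 < mnr z j := by
  unfold mnr
  rw [dif_pos hj]
  have hinj : Function.Injective z.mulVec :=
    Matrix.mulVec_injective_iff_isUnit.mpr ((Matrix.isUnit_iff_isUnit_det z).mpr hz.isUnit)
  have h1 : (z.transpose * z).PosDef := by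
    have h2 := Matrix.PosDef.conjTranspose_mul_self z hinj
    rwa [Matrix.conjTranspose_eq_transpose_of_trivial] at h2
  exact (h1.submatrix (Fin.castLE_injective hj)).det_pos

/-- the power function is multiplicative for the upper triangular matrices on the right -/
theorem pw_mul_tri {m : ℕ} (mu : Fin m → ℂ) {z a : Mat m} (hz : z.det ≠ 0) (had : a.det ≠ 0)
    (ha : ∀ i j : Fin m, j < i → a i j = 0) : pw mu (z * a) = pw mu z * pw mu a := by
  unfold pw
  rw [← Finset.prod_mul_distrib]
  refine Finset.prod_congr rfl fun j _ => ?_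
  have hj : (j : ℕ) + 1 ≤ m := j.2
  have hj' : (j : ℕ) ≤ m := j.2.le
  rw [mnr_mul_tri z a ha hj, mnr_mul_tri z a ha hj', ← Complex.mul_cpow_ofReal_nonneg
    (div_pos (mnr_pos' hz hj) (mnr_pos' hz hj')).le
    (div_pos (mnr_pos' had hj) (mnr_pos' had hj')).le, ← Complex.ofReal_mul, div_mul_div_comm]

theorem pw_ne0 {m : ℕ} (mu : Fin m → ℂ) {z : Mat m} (hz : z.det ≠ 0) : pw mu z ≠ 0 := by
  unfold pw
  refine Finset.prod_ne_zero_iff.mpr fun j _ => ?_
  have hj : (j : ℕ) + 1 ≤ m := j.2
  have hj' : (j : ℕ) ≤ m := j.2.le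
  have h1 := div_pos (mnr_pos' hz hj) (mnr_pos' hz hj')
  rw [Ne, Complex.cpow_eq_zero_iff, not_and_or]
  left
  exact_mod_cast h1.ne'

end Pool.Agent.H69.GK
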