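import Pool.Agent.H34.GM.Targets

/-!
Row VOK of the page ghk: the volume of the matrices near a flag, in the form without the Haar
measure of the orthogonal group: the integral over a compact part of `GL_m` of the product of
`(1 + (nu_i - nu_l) |x_il|)^(-2)` over the entries below the diagonal of `x = u w`, `u` orthogonal,
is at most a constant times the product of `(1 + nu_i - nu_l)⁻¹`.
-/

namespace Pool.Agent.H69.GK

open MeasureTheory Pool.Agent.H34.GM

/-- the one dimensional factor -/
noncomputable def g1 (a R x : ℝ) : ℝ := if |x| ≤ R then ((1 + a * |x|) ^ 2)⁻¹ else 0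

/-- the differences of the parameters, zero above the diagonal when `nu` is monotone -/
noncomputable def gp {m : ℕ} (ν : Fin m → ℝ) (i l : Fin m) : ℝ := max 0 (ν i - ν l)

lemma gp_nn {m : ℕ} (ν : Fin m → ℝ) (i l : Fin m) : 0 ≤ gp ν i l := le_max_left _ _

lemma g1_nn {a R : ℝ} (x : ℝ) : 0 ≤ g1 a R x := by
  unfold g1
  split_ifs
  · positivity
  · exact le_refl _

lemma g1_meas (a R : ℝ) : Measurable (g1 a R) := by
  unfold g1
  refine Measurable.ite (measurableSet_le (by fun_prop) measurable_const) ?_ measurable_const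
  fun_prop

lemma g1_int {a R : ℝ} (ha : 0 ≤ a) : Integrable (g1 a R) := by
  have h1 : Integrable (Set.indicator (Set.Icc (-R) R) (fun _ : ℝ => (1 : ℝ))) := by
    rw [integrable_indicator_iff measurableSet_Icc]
    exact integrableOn_const (by simp)
  refine h1.mono' (g1_meas a R).aestronglyMeasurable (Filter.Eventually.of_forall fun x => ?_)
  rw [Real.norm_of_nonneg (g1_nn x)]
  unfold g1
  by_cases h : |x| ≤ R
  · have hm : x ∈ Set.Icc (-R) R := ⟨(abs_le.mp h).1, (abs_le.mp h).2⟩
    rw [if_pos h, Set.indicator_of_mem hm]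
    have : (1 : ℝ) ≤ (1 + a * |x|) ^ 2 := by
      have h2 : 0 ≤ a * |x| := by positivity
      nlinarith
    exact inv_le_one_of_one_le₀ this
  · rw [if_neg h]
    exact Set.indicator_nonneg (fun _ _ => zero_le_one) _

lemma g1_le {a R : ℝ} (ha : 0 ≤ a) (hR : 1 ≤ R) : ∫ x : ℝ, g1 a R x ≤ 2 * R * (1 + a)⁻¹ := by
  have h1 : ∫ x : ℝ, g1 a R x = 2 * ∫ x in Set.Ioi (0 : ℝ),
      (if x ≤ R then ((1 + a * x) ^ 2)⁻¹ else 0) := by
    rw [← integral_comp_abs (f := fun x : ℝ => if x ≤ R then ((1 + a * x) ^ 2)⁻¹ else 0)]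
    rfl
  have h2 : ∫ x in Set.Ioi (0 : ℝ), (if x ≤ R then ((1 + a * x) ^ 2)⁻¹ else 0) =
      ∫ x in (0 : ℝ)..R, ((1 + a * x) ^ 2)⁻¹ := by
    rw [intervalIntegral.integral_of_le (by linarith : (0 : ℝ) ≤ R),
      ← integral_indicator measurableSet_Ioi, ← integral_indicator measurableSet_Ioc]
    refine integral_congr_ae (Filter.Eventually.of_forall fun x => ?_)
    by_cases hx : 0 < x
    · by_cases hx2 : x ≤ R
      · simp [Set.indicator, hx, hx2]
      · simp [Set.indicator, hx2]
    · simp [Set.indicator, hx]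
  have h3 : ∫ x in (0 : ℝ)..R, ((1 + a * x) ^ 2)⁻¹ = R / (1 + a * R) - 0 / (1 + a * 0) := by
    have hpos : ∀ x ∈ Set.uIcc (0 : ℝ) R, 0 < 1 + a * x := by
      intro x hx
      rw [Set.uIcc_of_le (by linarith)] at hx
      have := mul_nonneg ha hx.1
      linarith
    refine intervalIntegral.integral_eq_sub_of_hasDerivAt (f := fun x : ℝ => x / (1 + a * x))
      (fun x hx => ?_) ?_
    · have h0 := hpos x hx
      have hd : HasDerivAt (fun x : ℝ => x / (1 + a * x))
          ((1 * (1 + a * x) - x * (a * 1)) / (1 + a * x) ^ 2) x := by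
        refine HasDerivAt.div (hasDerivAt_id x) ?_ h0.ne'
        exact ((hasDerivAt_id x).const_mul a).const_add 1
      have he : ((1 + a * x) ^ 2)⁻¹ = (1 * (1 + a * x) - x * (a * 1)) / (1 + a * x) ^ 2 := by
        have : 1 * (1 + a * x) - x * (a * 1) = 1 := by ring
        rw [this, one_div]
      rw [he]
      exact hd
    · refine ContinuousOn.intervalIntegrable ?_
      refine ContinuousOn.inv₀ (by fun_prop) (fun x hx => ?_)
      exact pow_ne_zero 2 (hpos x hx).ne'
  rw [h1, h2, h3]
  have h4 : R / (1 + a * R) ≤ R * (1 + a)⁻¹ := by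
    rw [div_eq_mul_inv]
    have : 1 + a ≤ 1 + a * R := by nlinarith
    gcongr
  have h5 : (0 : ℝ) / (1 + a * 0) = 0 := by simp
  rw [h5]
  linarith

lemma g1_i0 {a R : ℝ} : 0 ≤ ∫ x : ℝ, g1 a R x := integral_nonneg fun x => g1_nn x

/-- the product over all the entries -/
lemma g2_int {m : ℕ} {A : Fin m → Fin m → ℝ} (hA : ∀ i l, 0 ≤ A i l) (R : ℝ) :
    Integrable (fun w : V m => ∏ i, ∏ l, g1 (A i l) R (w i l)) := by
  have h1 : ∀ i : Fin m, Integrable (fun x : Fin m → ℝ => ∏ l, g1 (A i l) R (x l)) := fun i =>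
    Integrable.fintype_prod (f := fun l => g1 (A i l) R) (fun l => g1_int (hA i l))
  exact Integrable.fintype_prod (f := fun i => fun x : Fin m → ℝ => ∏ l, g1 (A i l) R (x l)) h1

lemma g2_le {m : ℕ} {A : Fin m → Fin m → ℝ} (hA : ∀ i l, 0 ≤ A i l) {R : ℝ} (hR : 1 ≤ R) :
    ∫ w : V m, ∏ i, ∏ l, g1 (A i l) R (w i l) ≤
      (2 * R) ^ (m * m) * ∏ i, ∏ l, (1 + A i l)⁻¹ := by
  have h1 : ∫ w : V m, ∏ i, ∏ l, g1 (A i l) R (w i l) =
      ∏ i, ∏ l, ∫ x : ℝ, g1 (A i l) R x := by
    have h2 := integral_fintype_prod_volume_eq_prod (𝕜 := ℝ)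
      (fun i : Fin m => fun x : Fin m → ℝ => ∏ l, g1 (A i l) R (x l))
    rw [h2]
    refine Finset.prod_congr rfl fun i _ => ?_
    exact integral_fintype_prod_volume_eq_prod (𝕜 := ℝ) (fun l => g1 (A i l) R)
  rw [h1]
  calc ∏ i, ∏ l, ∫ x : ℝ, g1 (A i l) R x ≤ ∏ i, ∏ l, (2 * R * (1 + A i l)⁻¹) := by
        refine Finset.prod_le_prod (fun i _ => Finset.prod_nonneg fun l _ => g1_i0) fun i _ => ?_
        exact Finset.prod_le_prod (fun l _ => g1_i0) fun l _ => g1_le (hA i l) hR
    _ = (2 * R) ^ (m * m) * ∏ i, ∏ l, (1 + A i l)⁻¹ := by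
        have h3 : ∀ i : Fin m, ∏ l, (2 * R * (1 + A i l)⁻¹) =
            (2 * R) ^ m * ∏ l, (1 + A i l)⁻¹ := fun i => by
          rw [Finset.prod_mul_distrib (f := fun _ : Fin m => 2 * R), Finset.prod_const,
            Finset.card_univ, Fintype.card_fin]
        rw [Finset.prod_congr rfl fun i _ => h3 i,
          Finset.prod_mul_distrib (f := fun _ : Fin m => (2 * R) ^ m), Finset.prod_const,
          Finset.card_univ, Fintype.card_fin, pow_mul]

/-- the integrand of the row: the region and the product below the diagonal -/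
noncomputable def vk {m : ℕ} (R : ℝ) (ν : Fin m → ℝ) (u w : Mat m) : ℝ :=
  if sz w ≤ R ∧ R⁻¹ ≤ |w.det| then ∏ i, ∏ l, ((1 + gp ν i l * |(u * w) i l|) ^ 2)⁻¹ else 0

lemma mul_ent {m : ℕ} {u w : Mat m} (hu : u.transpose * u = 1) (i l : Fin m) :
    |(u * w) i l| ≤ m * sz w := by
  have h1 : ∀ j : Fin m, |u i j| ≤ 1 := by
    intro j
    have h2 : (u.transpose * u) j j = 1 := by rw [hu, Matrix.one_apply_eq]
    rw [Matrix.mul_apply] at h2
    have h3 : (u i j) ^ 2 ≤ 1 := by
      rw [← h2]
      have : (u i j) ^ 2 = u.transpose j i * u i j := by rw [Matrix.transpose_apply]; ring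
      rw [this]
      exact Finset.single_le_sum (f := fun k => u.transpose j k * u k j) (fun k _ => by
        rw [Matrix.transpose_apply]; exact mul_self_nonneg _) (Finset.mem_univ i)
    exact abs_le_one_iff_mul_self_le_one.mpr (by nlinarith)
  have h4 : ∀ j : Fin m, |w j l| ≤ sz w := by
    intro j
    have h5 : ‖w j‖ ≤ sz w := norm_le_pi_norm (f := ((fun i j => w i j) : V m)) j
    exact (norm_le_pi_norm (f := w j) l).trans h5
  rw [Matrix.mul_apply]
  calc |∑ j, u i j * w j l| ≤ ∑ j, |u i j * w j l| := Finset.abs_sum_le_sum_abs _ _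
    _ ≤ ∑ _j : Fin m, sz w := by
        refine Finset.sum_le_sum fun j _ => ?_
        rw [abs_mul]
        calc |u i j| * |w j l| ≤ 1 * sz w := mul_le_mul (h1 j) (h4 j) (abs_nonneg _) zero_le_one
          _ = sz w := one_mul _
    _ = m * sz w := by simp

/-- row VOK -/
theorem pf_VOK (hH : T_HAR) : ∀ (m : ℕ), 1 ≤ m → ∀ R : ℝ, 1 ≤ R → ∃ C : ℝ, 0 < C ∧
    ∀ (ν : Fin m → ℝ) (u : Mat m), u * u.transpose = 1 →
      ∫⁻ w : V m, ENNReal.ofReal (vk R ν u (mt w)) ∂(hm m) ≤
        ENNReal.ofReal (C * ∏ i, ∏ l, (1 + gp ν i l)⁻¹) := by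
  intro m hm1 R hR
  have hm0 : (1 : ℝ) ≤ m := by exact_mod_cast hm1
  have hR' : (1 : ℝ) ≤ m * R := by nlinarith
  refine ⟨R ^ m * (2 * (m * R)) ^ (m * m), by positivity, fun ν u hu => ?_⟩
  have hu2 : u.transpose * u = 1 := mul_eq_one_comm.mp hu
  have hd : u.det * u.det = 1 := by
    have := congrArg Matrix.det hu
    rwa [Matrix.det_mul, Matrix.det_transpose, Matrix.det_one] at this
  have hd0 : u.det ≠ 0 := fun h => by rw [h] at hd; norm_num at hd
  have hdt : u.transpose.det ≠ 0 := by rwa [Matrix.det_transpose]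
  have hda : |u.transpose.det| = 1 := by
    rw [Matrix.det_transpose]
    have : |u.det| * |u.det| = 1 := by rw [← abs_mul, hd, abs_one]
    nlinarith [abs_nonneg u.det]
  have hcs : Measurable (fun w : V m => sz (mt w)) := by
    unfold sz
    exact measurable_norm
  have hcd : ∀ a : Mat m, Measurable (fun w : V m => (a * mt w).det) := by
    intro a
    refine Continuous.measurable ?_
    refine Continuous.matrix_det ?_
    exact continuous_const.matrix_mul continuous_id
  have hce : ∀ i l, Measurable (fun w : V m => (u * mt w) i l) := by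
    intro i l
    simp only [Matrix.mul_apply]
    refine Finset.measurable_sum _ fun j _ => ?_
    have h0 : Measurable (fun w : V m => w j l) := by fun_prop
    exact h0.const_mul _
  have hfm : Measurable (fun w : V m => ENNReal.ofReal (vk R ν u (mt w))) := by
    refine ENNReal.measurable_ofReal.comp ?_
    unfold vk
    refine Measurable.ite ?_ ?_ measurable_const
    · refine MeasurableSet.inter (measurableSet_le hcs measurable_const) ?_
      have h1 := hcd 1
      simp only [one_mul] at h1
      exact measurableSet_le measurable_const h1.abs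
    · refine Finset.measurable_prod _ fun i _ => Finset.measurable_prod _ fun l _ => ?_
      exact ((((hce i l).abs.const_mul _).const_add 1).pow_const 2).inv
  have h1 := ((hH m hm1).1 u.transpose hdt _ hfm).1
  rw [← h1]
  have h2 : ∀ w : V m, ENNReal.ofReal (vk R ν u (mt (fun i j => (u.transpose * mt w) i j))) ≤
      ENNReal.ofReal (if R⁻¹ ≤ |(mt w).det| then
        ∏ i, ∏ l, g1 (gp ν i l) (m * R) (w i l) else 0) := by
    intro w
    have he : mt (fun i j => (u.transpose * mt w) i j) = u.transpose * mt w := rfl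
    rw [he]
    refine ENNReal.ofReal_le_ofReal ?_
    unfold vk
    by_cases hc : sz (u.transpose * mt w) ≤ R ∧ R⁻¹ ≤ |(u.transpose * mt w).det|
    · rw [if_pos hc]
      have hdw : |(u.transpose * mt w).det| = |(mt w).det| := by
        rw [Matrix.det_mul, abs_mul, hda, one_mul]
      rw [if_pos (by rw [← hdw]; exact hc.2)]
      refine le_of_eq ?_
      refine Finset.prod_congr rfl fun i _ => Finset.prod_congr rfl fun l _ => ?_
      have he2 : u * (u.transpose * mt w) = mt w := by
        rw [← Matrix.mul_assoc, hu, Matrix.one_mul]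
      rw [he2]
      unfold g1
      have h3 : |w i l| ≤ m * R := by
        have h4 := mul_ent (w := u.transpose * mt w) hu2 i l
        rw [he2] at h4
        refine h4.trans ?_
        exact mul_le_mul_of_nonneg_left hc.1 (by positivity)
      rw [if_pos h3]
      rfl
    · rw [if_neg hc]
      split_ifs
      · exact Finset.prod_nonneg fun i _ => Finset.prod_nonneg fun l _ => g1_nn _
      · exact le_refl _
  refine (lintegral_mono h2).trans ?_
  have hG := g2_int (m := m) (A := gp ν) (fun i l => gp_nn ν i l) (m * R)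
  have hwm : Measurable (fun z : V m => ENNReal.ofReal ((|(mt z).det| ^ m)⁻¹)) := by
    have h1 := hcd 1
    simp only [one_mul] at h1
    exact ENNReal.measurable_ofReal.comp ((h1.abs.pow_const m).inv)
  have hgm : Measurable (fun w : V m => ENNReal.ofReal (if R⁻¹ ≤ |(mt w).det| then
        ∏ i, ∏ l, g1 (gp ν i l) (m * R) (w i l) else 0)) := by
    refine ENNReal.measurable_ofReal.comp ?_
    refine Measurable.ite ?_ ?_ measurable_const
    · have h1 := hcd 1
      simp only [one_mul] at h1
      exact measurableSet_le measurable_const h1.abs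
    · refine Finset.measurable_prod _ fun i _ => Finset.measurable_prod _ fun l _ => ?_
      exact (g1_meas _ _).comp ((measurable_pi_apply l).comp (measurable_pi_apply i))
  unfold hm
  rw [lintegral_withDensity_eq_lintegral_mul _ hwm hgm]
  have h5 : ∀ w : V m, ((fun z : V m => ENNReal.ofReal ((|(mt z).det| ^ m)⁻¹)) *
      (fun w : V m => ENNReal.ofReal (if R⁻¹ ≤ |(mt w).det| then
        ∏ i, ∏ l, g1 (gp ν i l) (m * R) (w i l) else 0))) w ≤
      ENNReal.ofReal (R ^ m * ∏ i, ∏ l, g1 (gp ν i l) (m * R) (w i l)) := by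
    intro w
    rw [Pi.mul_apply, ← ENNReal.ofReal_mul (by positivity)]
    refine ENNReal.ofReal_le_ofReal ?_
    have hn : 0 ≤ ∏ i, ∏ l, g1 (gp ν i l) (m * R) (w i l) :=
      Finset.prod_nonneg fun i _ => Finset.prod_nonneg fun l _ => g1_nn _
    split_ifs with hc
    · refine mul_le_mul_of_nonneg_right ?_ hn
      rw [← inv_pow]
      have hRp : 0 < R⁻¹ := by positivity
      have h6 : |(mt w).det|⁻¹ ≤ R := by
        have := inv_anti₀ hRp hc
        rwa [inv_inv] at this
      exact pow_le_pow_left₀ (by positivity) h6 m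
    · rw [mul_zero]
      positivity
  refine (lintegral_mono h5).trans ?_
  rw [← ofReal_integral_eq_lintegral_ofReal (hG.const_mul _) (Filter.Eventually.of_forall fun w =>
    mul_nonneg (by positivity)
      (Finset.prod_nonneg fun i _ => Finset.prod_nonneg fun l _ => g1_nn _))]
  refine ENNReal.ofReal_le_ofReal ?_
  rw [integral_const_mul, mul_assoc]
  refine mul_le_mul_of_nonneg_left ?_ (by positivity)
  exact g2_le (fun i l => gp_nn ν i l) hR'

end Pool.Agent.H69.GK
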