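import Pool.Agent.H69.GK.PHK

/-!
Row PHK of the page ghk, second part: the pointwise identity, and the existence of the weights.
-/

namespace Pool.Agent.H69.GK

open MeasureTheory Pool.Agent.H34.GM

/-- the square of the Euclidean norm -/
noncomputable def fr {m : ℕ} (z : Mat m) : ℝ := (z.transpose * z).trace

lemma fr_eq {m : ℕ} (z : Mat m) : fr z = ∑ j, ∑ i, z i j ^ 2 := by
  unfold fr Matrix.trace
  refine Finset.sum_congr rfl fun j _ => ?_
  rw [Matrix.diag_apply, Matrix.mul_apply]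
  refine Finset.sum_congr rfl fun i _ => ?_
  rw [Matrix.transpose_apply, sq]

lemma fr_nn {m : ℕ} (z : Mat m) : 0 ≤ fr z := by
  rw [fr_eq]
  exact Finset.sum_nonneg fun j _ => Finset.sum_nonneg fun i _ => sq_nonneg _

lemma fr_ent {m : ℕ} (z : Mat m) (i j : Fin m) : z i j ^ 2 ≤ fr z := by
  rw [fr_eq]
  calc z i j ^ 2 ≤ ∑ i, z i j ^ 2 :=
        Finset.single_le_sum (f := fun i => z i j ^ 2) (fun i _ => sq_nonneg _)
          (Finset.mem_univ i)
    _ ≤ ∑ j, ∑ i, z i j ^ 2 :=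
        Finset.single_le_sum (f := fun j => ∑ i, z i j ^ 2)
          (fun j _ => Finset.sum_nonneg fun i _ => sq_nonneg _) (Finset.mem_univ j)

lemma fr_left {m : ℕ} {u : Mat m} (hu : u * u.transpose = 1) (z : Mat m) : fr (u * z) = fr z := by
  have hu2 : u.transpose * u = 1 := mul_eq_one_comm.mp hu
  unfold fr
  rw [Matrix.transpose_mul, Matrix.mul_assoc, ← Matrix.mul_assoc u.transpose, hu2,
    Matrix.one_mul]

lemma fr_right {m : ℕ} {u : Mat m} (hu : u * u.transpose = 1) (z : Mat m) :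
    fr (z * u) = fr z := by
  unfold fr
  rw [Matrix.transpose_mul, Matrix.mul_assoc, Matrix.trace_mul_comm, Matrix.mul_assoc,
    Matrix.mul_assoc, hu, Matrix.mul_one]

lemma fr_cont {m : ℕ} : Continuous (fun z : Mat m => fr z) := by
  unfold fr
  exact (continuous_id.matrix_transpose.matrix_mul continuous_id).matrix_trace

lemma orth_det {m : ℕ} {u : Mat m} (hu : u * u.transpose = 1) : |u.det| = 1 := by
  have hd : u.det * u.det = 1 := by
    have := congrArg Matrix.det hu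
    rwa [Matrix.det_mul, Matrix.det_transpose, Matrix.det_one] at this
  have : |u.det| * |u.det| = 1 := by rw [← abs_mul, hd, abs_one]
  nlinarith [abs_nonneg u.det]

/-- real test functions -/
structure RTst (m : ℕ) (η : Mat m → ℝ) : Prop where
  cont : Continuous η
  nn : ∀ z, 0 ≤ η z
  supp : ∃ c : ℝ, 0 < c ∧ ∀ z, η z ≠ 0 → sz z ≤ c ∧ c⁻¹ ≤ |z.det|
  left : ∀ u : Mat m, u * u.transpose = 1 → ∀ z, η (u * z) = η z
  right : ∀ u : Mat m, u * u.transpose = 1 → ∀ z, η (z * u) = η z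

theorem exists_rtst {m : ℕ} (z0 : Mat m) (h0 : z0.det ≠ 0) : ∃ η : Mat m → ℝ,
    RTst m η ∧ 0 < η z0 := by
  have hb : 0 < |z0.det| / 2 := by
    have := abs_pos.mpr h0
    linarith
  have hB : 1 ≤ 1 + fr z0 := by linarith [fr_nn z0]
  refine ⟨fun z => max 0 (1 + fr z0 - fr z) * max 0 (|z.det| - |z0.det| / 2),
    ⟨?_, ?_, ?_, ?_, ?_⟩, ?_⟩
  · exact (continuous_const.max (continuous_const.sub fr_cont)).mul
      (continuous_const.max (det_cont.abs.sub continuous_const))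
  · intro z
    exact mul_nonneg (le_max_left _ _) (le_max_left _ _)
  · refine ⟨max (1 + fr z0) (|z0.det| / 2)⁻¹, lt_of_lt_of_le (by linarith) (le_max_left _ _),
      fun z hz => ?_⟩
    have h1 : 0 < 1 + fr z0 - fr z := by
      by_contra hcon
      apply hz
      change max 0 (1 + fr z0 - fr z) * _ = 0
      rw [max_eq_left (not_lt.mp hcon), zero_mul]
    have h2 : 0 < |z.det| - |z0.det| / 2 := by
      by_contra hcon
      apply hz
      change _ * max 0 (|z.det| - |z0.det| / 2) = 0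
      rw [max_eq_left (not_lt.mp hcon), mul_zero]
    refine ⟨?_, ?_⟩
    · refine le_trans ?_ (le_max_left _ _)
      unfold sz
      refine (pi_norm_le_iff_of_nonneg (by linarith)).mpr fun i => ?_
      refine (pi_norm_le_iff_of_nonneg (by linarith)).mpr fun j => ?_
      have h3 := fr_ent z i j
      rw [Real.norm_eq_abs]
      have h4 : |z i j| ^ 2 ≤ (1 + fr z0) ^ 2 := by
        rw [sq_abs]
        nlinarith
      exact le_of_sq_le_sq h4 (by linarith)
    · have h3 : (max (1 + fr z0) (|z0.det| / 2)⁻¹)⁻¹ ≤ ((|z0.det| / 2)⁻¹)⁻¹ :=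
        inv_anti₀ (inv_pos.mpr hb) (le_max_right _ _)
      rw [inv_inv] at h3
      linarith
  · intro u hu z
    change max 0 (1 + fr z0 - fr (u * z)) * max 0 (|(u * z).det| - |z0.det| / 2) = _
    rw [fr_left hu, Matrix.det_mul, abs_mul, orth_det hu, one_mul]
  · intro u hu z
    change max 0 (1 + fr z0 - fr (z * u)) * max 0 (|(z * u).det| - |z0.det| / 2) = _
    rw [fr_right hu, Matrix.det_mul, abs_mul, orth_det hu, mul_one]
  · change 0 < max 0 (1 + fr z0 - fr z0) * max 0 (|z0.det| - |z0.det| / 2)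
    have h1 : max 0 (1 + fr z0 - fr z0) = 1 := by
      rw [max_eq_right (by linarith)]
      ring
    have h2 : max 0 (|z0.det| - |z0.det| / 2) = |z0.det| / 2 := by
      rw [max_eq_right (by linarith)]
      ring
    rw [h1, h2, one_mul]
    exact hb

/-- the weights exist -/
theorem exists_kap (hH : T_HAR) {m : ℕ} (hm1 : 1 ≤ m) : ∃ κ : Mat m → ℝ, Kap m κ := by
  obtain ⟨η, hη, h1⟩ := exists_rtst (1 : Mat m) (by rw [Matrix.det_one]; exact one_ne_zero)
  obtain ⟨c, hc, hs⟩ := hη.supp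
  have hi : Integrable (fun z : V m => η (mt z)) (hm m) := by
    have h2 := int_RR hH hm1 hc (f := fun z : V m => ((η (mt z) : ℝ) : ℂ))
      (Complex.continuous_ofReal.comp (hη.cont.comp mt_cont)) (fun z hz => by
        refine hs _ fun h => hz ?_
        change ((η (mt z) : ℝ) : ℂ) = 0
        rw [h, Complex.ofReal_zero])
    exact h2.re
  have hpos : 0 < ∫ z, η (mt z) ∂(hm m) := by
    rw [integral_pos_iff_support_of_nonneg (fun z => hη.nn _) hi]
    have hop : IsOpen {z : V m | 0 < η (mt z)} :=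
      isOpen_lt continuous_const (hη.cont.comp mt_cont)
    have h3 : 0 < hm m {z : V m | 0 < η (mt z)} :=
      hm_open hop (z := (fun i j => (1 : Mat m) i j)) h1
        (by change (1 : Mat m).det ≠ 0; rw [Matrix.det_one]; exact one_ne_zero)
    refine h3.trans_le (measure_mono fun z hz => ?_)
    exact (ne_of_gt hz : η (mt z) ≠ 0)
  refine ⟨fun z => (∫ z, η (mt z) ∂(hm m))⁻¹ * η z, ⟨?_, ?_, ?_, ?_, ?_⟩⟩
  · exact continuous_const.mul hη.cont
  · intro z
    exact mul_nonneg (inv_pos.mpr hpos).le (hη.nn z)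
  · refine ⟨c, hc, fun z hz => hs z fun h => hz ?_⟩
    change _ * η z = 0
    rw [h, mul_zero]
  · intro u hu z
    change _ * η (u * z) = _ * η z
    rw [hη.left u hu]
  · change ∫ z : V m, (∫ z, η (mt z) ∂(hm m))⁻¹ * η (mt z) ∂(hm m) = 1
    rw [integral_const_mul]
    exact inv_mul_cancel₀ hpos.ne'

/-- row PHK -/
theorem pf_PHK (hH : T_HAR) (hA : T_HAC) (hP : T_PWC) {m : ℕ} (hm1 : 1 ≤ m)
    (mu : Fin m → ℂ) {κ : Mat m → ℝ} (hκ : Kap m κ) (φ : Mat m → ℂ) (n : ℂ)
    (hφ : ContinuousOn φ {z | z.det ≠ 0})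
    (hφl : ∀ u : Mat m, u * u.transpose = 1 → ∀ z, z.det ≠ 0 → φ (u * z) = φ z)
    (hφr : ∀ u : Mat m, u * u.transpose = 1 → ∀ z, z.det ≠ 0 → φ (z * u) = φ z)
    (hk : ∀ k : Mat m → ℂ, Tst m k → ∫ z, k (mt z) * φ (mt z) ∂(hm m) =
      n * ∫ z, k (mt z) * pw mu (mt z) ∂(hm m)) :
    ∀ z, z.det ≠ 0 → φ z = n * phi0 κ mu z := by
  intro z0 hz0
  obtain ⟨η, hη, h1⟩ := exists_rtst z0 hz0
  obtain ⟨c, hc, hs⟩ := hη.supp
  obtain ⟨d, hd⟩ : ∃ d : Mat m → ℂ, ∀ z, d z = φ z - n * phi0 κ mu z := ⟨_, fun _ => rfl⟩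
  have hpc := phi0_cont hH hP hm1 mu hκ
  have hdc : ContinuousOn d {z | z.det ≠ 0} := by
    have h2 : ContinuousOn (fun z => φ z - n * phi0 κ mu z) {z : Mat m | z.det ≠ 0} :=
      ContinuousOn.sub hφ (ContinuousOn.mul continuousOn_const hpc)
    exact h2.congr fun z _ => hd z
  have hopen : IsOpen {z : Mat m | z.det ≠ 0} := isOpen_ne.preimage det_cont
  have hηc : Continuous (fun z : Mat m => ((η z : ℝ) : ℂ)) :=
    Complex.continuous_ofReal.comp hη.cont
  have hηs : ∀ z : Mat m, ((η z : ℝ) : ℂ) ≠ 0 → z ∈ {z : Mat m | sz z ≤ c ∧ c⁻¹ ≤ |z.det|} :=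
    fun z hz => hs z fun h => hz (by rw [h, Complex.ofReal_zero])
  have hkc : Continuous (fun z : Mat m => ((η z : ℝ) : ℂ) * (starRingEnd ℂ) (d z)) :=
    cont_ext hopen (tst_closed c) (tst_sub hc) (Complex.continuous_conj.comp_continuousOn hdc)
      hηc hηs
  have hkne : ∀ z : Mat m, ((η z : ℝ) : ℂ) * (starRingEnd ℂ) (d z) ≠ 0 →
      z ∈ {z : Mat m | sz z ≤ c ∧ c⁻¹ ≤ |z.det|} := fun z hz => hηs z (left_ne_zero_of_mul hz)
  have hudet : ∀ u : Mat m, u * u.transpose = 1 → u.det ≠ 0 := by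
    intro u hu h
    have := orth_det hu
    rw [h, abs_zero] at this
    exact zero_ne_one this
  have hkT : Tst m (fun z => ((η z : ℝ) : ℂ) * (starRingEnd ℂ) (d z)) := by
    refine ⟨hkc, ⟨c, hc, fun z hz => hkne z hz⟩, ?_, ?_⟩
    · intro u hu z
      change ((η (u * z) : ℝ) : ℂ) * (starRingEnd ℂ) (d (u * z)) = _
      by_cases hz : z.det = 0
      · have h2 : η z = 0 := by
          by_contra hcon
          exact tst_sub hc (hs z hcon) hz
        rw [hη.left u hu, h2, Complex.ofReal_zero, zero_mul, zero_mul]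
      · rw [hη.left u hu, hd, hd, hφl u hu z hz, phi0_left mu κ hu]
    · intro u hu z
      change ((η (z * u) : ℝ) : ℂ) * (starRingEnd ℂ) (d (z * u)) = _
      by_cases hz : z.det = 0
      · have h2 : η z = 0 := by
          by_contra hcon
          exact tst_sub hc (hs z hcon) hz
        rw [hη.right u hu, h2, Complex.ofReal_zero, zero_mul, zero_mul]
      · rw [hη.right u hu, hd, hd, hφr u hu z hz, phi0_right hA hm1 mu hκ hu]
  have hi1 : Integrable (fun z : V m => ((η (mt z) : ℝ) : ℂ) * (starRingEnd ℂ) (d (mt z)) *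
      φ (mt z)) (hm m) := by
    have h2 : Continuous (fun z : Mat m => ((η z : ℝ) : ℂ) * (starRingEnd ℂ) (d z) * φ z) :=
      cont_ext hopen (tst_closed c) (tst_sub hc) hφ hkc hkne
    exact int_RR hH hm1 hc (h2.comp mt_cont) fun z hz => hkne _ (left_ne_zero_of_mul hz)
  have hi2 : Integrable (fun z : V m => ((η (mt z) : ℝ) : ℂ) * (starRingEnd ℂ) (d (mt z)) *
      phi0 κ mu (mt z)) (hm m) := by
    have h2 : Continuous (fun z : Mat m => ((η z : ℝ) : ℂ) * (starRingEnd ℂ) (d z) *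
        phi0 κ mu z) := cont_ext hopen (tst_closed c) (tst_sub hc) hpc hkc hkne
    exact int_RR hH hm1 hc (h2.comp mt_cont) fun z hz => hkne _ (left_ne_zero_of_mul hz)
  have h3 : ∫ z : V m, ((η (mt z) : ℝ) : ℂ) * (starRingEnd ℂ) (d (mt z)) * d (mt z) ∂(hm m) =
      0 := by
    have h4 : ∀ z : V m, ((η (mt z) : ℝ) : ℂ) * (starRingEnd ℂ) (d (mt z)) * d (mt z) =
        ((η (mt z) : ℝ) : ℂ) * (starRingEnd ℂ) (d (mt z)) * φ (mt z) -
        n * (((η (mt z) : ℝ) : ℂ) * (starRingEnd ℂ) (d (mt z)) * phi0 κ mu (mt z)) := by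
      intro z
      rw [hd (mt z)]
      ring
    rw [integral_congr_ae (Filter.Eventually.of_forall h4),
      integral_sub hi1 (hi2.const_mul n), integral_const_mul]
    have h5 := hk _ hkT
    have h6 := int_tst_phi0 hH hA hP hm1 mu hκ hkT
    rw [h5, h6, sub_self]
  have h7 : ∀ z : V m, ((η (mt z) : ℝ) : ℂ) * (starRingEnd ℂ) (d (mt z)) * d (mt z) =
      ((η (mt z) * ‖d (mt z)‖ ^ 2 : ℝ) : ℂ) := by
    intro z
    rw [mul_assoc, mul_comm ((starRingEnd ℂ) (d (mt z))), Complex.mul_conj,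
      Complex.normSq_eq_norm_sq]
    push_cast
    ring
  have h8 : ∫ z : V m, η (mt z) * ‖d (mt z)‖ ^ 2 ∂(hm m) = 0 := by
    rw [integral_congr_ae (Filter.Eventually.of_forall h7), integral_complex_ofReal] at h3
    exact_mod_cast h3
  have hcc : Continuous (fun z : V m => η (mt z) * ‖d (mt z)‖ ^ 2) := by
    have h9 : Continuous (fun z : Mat m => ((η z : ℝ) : ℂ) * (starRingEnd ℂ) (d z) * d z) :=
      cont_ext hopen (tst_closed c) (tst_sub hc) hdc hkc hkne
    have h10 : Continuous (fun z : V m => (((η (mt z) : ℝ) : ℂ) * (starRingEnd ℂ) (d (mt z)) *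
        d (mt z)).re) := Complex.continuous_re.comp (h9.comp mt_cont)
    refine h10.congr fun z => ?_
    rw [h7 z, Complex.ofReal_re]
  have hi3 : Integrable (fun z : V m => η (mt z) * ‖d (mt z)‖ ^ 2) (hm m) := by
    have h9 := int_RR hH hm1 hc (Complex.continuous_ofReal.comp hcc) fun z hz => by
      refine hs (mt z) fun h => hz ?_
      change ((η (mt z) * ‖d (mt z)‖ ^ 2 : ℝ) : ℂ) = 0
      rw [h, zero_mul, Complex.ofReal_zero]
    exact h9.re
  by_contra hne
  have hd0 : d z0 ≠ 0 := by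
    rw [hd]
    exact sub_ne_zero.mpr hne
  have hpos : 0 < ∫ z : V m, η (mt z) * ‖d (mt z)‖ ^ 2 ∂(hm m) := by
    rw [integral_pos_iff_support_of_nonneg
      (fun z => mul_nonneg (hη.nn _) (sq_nonneg _)) hi3]
    have hop : IsOpen {z : V m | 0 < η (mt z) * ‖d (mt z)‖ ^ 2} :=
      isOpen_lt continuous_const hcc
    have h9 : 0 < hm m {z : V m | 0 < η (mt z) * ‖d (mt z)‖ ^ 2} :=
      hm_open hop (z := (fun i j => z0 i j))
        (mul_pos h1 (pow_pos (norm_pos_iff.mpr hd0) 2)) hz0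
    refine h9.trans_le (measure_mono fun z hz => ?_)
    exact (ne_of_gt hz : η (mt z) * ‖d (mt z)‖ ^ 2 ≠ 0)
  exact absurd h8 hpos.ne'

end Pool.Agent.H69.GK
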