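import Pool.Agent.H69.GK.VOK
import Pool.Agent.H40.GHK.GRD

/-!
Row FLG of the page ghk: the entries below the diagonal of `kᵀ w'` are controlled by the distances
of the flags of `k` and `k'`, where `w' = k' a'`, `a'` upper triangular.
-/

namespace Pool.Agent.H69.GK

open MeasureTheory Pool.Agent.H34.GM Pool.Agent.H40.GHK

/-- the projection of the flag -/
noncomputable def Ek {m : ℕ} (k : Mat m) (j : ℕ) : Mat m := k * cflag m j * k.transpose

lemma ent_le_fsq {m : ℕ} (A : Mat m) (i j : Fin m) : |A i j| ≤ Real.sqrt (fsq A) := by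
  refine Real.abs_le_sqrt ?_
  unfold fsq
  calc A i j ^ 2 ≤ ∑ j, A i j ^ 2 :=
        Finset.single_le_sum (f := fun j => A i j ^ 2) (fun j _ => sq_nonneg _)
          (Finset.mem_univ j)
    _ ≤ ∑ i, ∑ j, A i j ^ 2 :=
        Finset.single_le_sum (f := fun i => ∑ j, A i j ^ 2)
          (fun i _ => Finset.sum_nonneg fun j _ => sq_nonneg _) (Finset.mem_univ i)

lemma orth_ent {m : ℕ} {k : Mat m} (hk : k * k.transpose = 1) (i j : Fin m) : |k i j| ≤ 1 := by
  have h1 : (k * k.transpose) i i = 1 := by rw [hk, Matrix.one_apply_eq]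
  rw [Matrix.mul_apply] at h1
  have h2 : k i j ^ 2 ≤ 1 := by
    rw [← h1, sq]
    exact Finset.single_le_sum (f := fun l => k i l * k.transpose l i) (fun l _ => by
      rw [Matrix.transpose_apply]; exact mul_self_nonneg _) (Finset.mem_univ j)
  exact abs_le_one_iff_mul_self_le_one.mpr (by nlinarith)

lemma sz_ent {m : ℕ} (w : Mat m) (i j : Fin m) : |w i j| ≤ sz w := by
  have h5 : ‖w i‖ ≤ sz w := norm_le_pi_norm (f := ((fun i j => w i j) : V m)) i
  exact (norm_le_pi_norm (f := w i) j).trans h5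

/-- the basic identity and inequality -/
lemma flg_ent {m : ℕ} {k k' a' : Mat m} (hk : k * k.transpose = 1)
    (hk' : k' * k'.transpose = 1) (ha : ∀ i j : Fin m, j < i → a' i j = 0) {R : ℝ}
    (hR : sz (k' * a') ≤ R) (i l : Fin m) (j : ℕ) (hlj : (l : ℕ) < j) (hji : j ≤ i) :
    |(k.transpose * (k' * a')) i l| ≤ (m : ℝ) ^ 2 * R * Real.sqrt (fsq (Ek k j - Ek k' j)) := by
  have hk2 : k.transpose * k = 1 := mul_eq_one_comm.mp hk
  have hk2' : k'.transpose * k' = 1 := mul_eq_one_comm.mp hk'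
  have h1 : (k.transpose * Ek k j * (k' * a')) i l = 0 := by
    have h2 : k.transpose * Ek k j = cflag m j * k.transpose := by
      unfold Ek
      rw [← Matrix.mul_assoc, ← Matrix.mul_assoc, hk2, Matrix.one_mul]
    rw [h2, Matrix.mul_assoc]
    unfold cflag
    rw [Matrix.diagonal_mul, if_neg (by omega), zero_mul]
  have h3 : (k.transpose * Ek k' j * (k' * a')) i l = (k.transpose * (k' * a')) i l := by
    have h4 : Ek k' j * (k' * a') = k' * (cflag m j * a') := by
      unfold Ek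
      calc k' * cflag m j * k'.transpose * (k' * a') =
          k' * cflag m j * (k'.transpose * k') * a' := by simp only [Matrix.mul_assoc]
        _ = k' * (cflag m j * a') := by rw [hk2', Matrix.mul_one, Matrix.mul_assoc]
    rw [Matrix.mul_assoc, h4, Matrix.mul_apply, Matrix.mul_apply]
    refine Finset.sum_congr rfl fun p _ => ?_
    congr 1
    rw [Matrix.mul_apply, Matrix.mul_apply]
    refine Finset.sum_congr rfl fun q _ => ?_
    congr 1
    unfold cflag
    rw [Matrix.diagonal_mul]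
    by_cases hq : (q : ℕ) < j
    · rw [if_pos hq, one_mul]
    · rw [if_neg hq, zero_mul, ha q l (by
        rw [Fin.lt_def]
        omega)]
  have h5 : (k.transpose * (k' * a')) i l =
      -((k.transpose * (Ek k j - Ek k' j) * (k' * a')) i l) := by
    rw [Matrix.mul_sub, Matrix.sub_mul, Matrix.sub_apply, h1, h3]
    ring
  have hs := Real.sqrt_nonneg (fsq (Ek k j - Ek k' j))
  have hR0 : 0 ≤ R := le_trans (norm_nonneg _) hR
  rw [h5, abs_neg, Matrix.mul_apply]
  have h6 : ∀ q : Fin m, |(k.transpose * (Ek k j - Ek k' j)) i q| ≤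
      m * Real.sqrt (fsq (Ek k j - Ek k' j)) := by
    intro q
    rw [Matrix.mul_apply]
    calc |∑ p, k.transpose i p * (Ek k j - Ek k' j) p q|
        ≤ ∑ p, |k.transpose i p * (Ek k j - Ek k' j) p q| := Finset.abs_sum_le_sum_abs _ _
      _ ≤ ∑ _p : Fin m, Real.sqrt (fsq (Ek k j - Ek k' j)) := by
          refine Finset.sum_le_sum fun p _ => ?_
          rw [abs_mul, Matrix.transpose_apply]
          calc |k p i| * |(Ek k j - Ek k' j) p q| ≤
                1 * Real.sqrt (fsq (Ek k j - Ek k' j)) :=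
                mul_le_mul (orth_ent hk p i) (ent_le_fsq _ p q) (abs_nonneg _) zero_le_one
            _ = _ := one_mul _
      _ = m * Real.sqrt (fsq (Ek k j - Ek k' j)) := by simp
  calc |∑ q, (k.transpose * (Ek k j - Ek k' j)) i q * (k' * a') q l|
      ≤ ∑ q, |(k.transpose * (Ek k j - Ek k' j)) i q * (k' * a') q l| :=
        Finset.abs_sum_le_sum_abs _ _
    _ ≤ ∑ _q : Fin m, m * Real.sqrt (fsq (Ek k j - Ek k' j)) * R := by
        refine Finset.sum_le_sum fun q _ => ?_
        rw [abs_mul]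
        exact mul_le_mul (h6 q) ((sz_ent _ q l).trans hR) (abs_nonneg _) (by positivity)
    _ = (m : ℝ) ^ 2 * R * Real.sqrt (fsq (Ek k j - Ek k' j)) := by
        rw [Finset.sum_const, Finset.card_univ, Fintype.card_fin, nsmul_eq_mul]
        ring

/-- telescoping -/
lemma flg_tel {m : ℕ} (ν : Fin m → ℝ) {y K : ℝ} (hK : 0 ≤ K) (l : Fin m) :
    ∀ (n : ℕ) (i : Fin m), (i : ℕ) = l + n →
      (∀ (p q : Fin m), (q : ℕ) = p + 1 → (l : ℕ) < q → q ≤ i → (ν q - ν p) * y ≤ K) →
      (ν i - ν l) * y ≤ n * K := by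
  intro n
  induction n with
  | zero =>
    intro i hi _
    have : i = l := Fin.ext (by simpa using hi)
    rw [this]
    simp
  | succ n ih =>
    intro i hi h
    obtain ⟨p, hp⟩ : ∃ p : Fin m, (p : ℕ) = l + n := ⟨⟨l + n, by omega⟩, rfl⟩
    have h1 := ih p hp fun p' q' h1 h2 h3 => h p' q' h1 h2
      (h3.trans (by rw [Fin.le_def]; omega))
    have h2 := h p i (by omega) (by omega) le_rfl
    push_cast
    have : (ν i - ν l) * y = (ν i - ν p) * y + (ν p - ν l) * y := by ring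
    rw [this]
    linarith

/-- row FLG -/
theorem pf_FLG (m : ℕ) (R : ℝ) (hR : 1 ≤ R) : ∃ C : ℝ, 0 < C ∧ ∀ (ν : Fin m → ℝ),
    Monotone ν → ∀ (k k' a' : Mat m), k * k.transpose = 1 → k' * k'.transpose = 1 →
      (∀ i j : Fin m, j < i → a' i j = 0) → sz (k' * a') ≤ R → ∀ G : ℝ, 0 ≤ G →
      (∀ p q : Fin m, (q : ℕ) = p + 1 →
        (ν q - ν p) / 2 * Real.sqrt (fsq (Ek k q - Ek k' q)) ≤ G) →
      ((1 + G) ^ (2 * (m * m)))⁻¹ ≤
        C * ∏ i, ∏ l, ((1 + gp ν i l * |(k.transpose * (k' * a')) i l|) ^ 2)⁻¹ := by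
  have hm0 : (0 : ℝ) ≤ m := Nat.cast_nonneg m
  refine ⟨(1 + 2 * (m : ℝ) ^ 3 * R) ^ (2 * (m * m)), by positivity, ?_⟩
  intro ν hν k k' a' hk hk' ha hs G hG hE
  obtain ⟨K, hK⟩ : ∃ K : ℝ, K = 1 + 2 * (m : ℝ) ^ 3 * R := ⟨_, rfl⟩
  have hK1 : 1 ≤ K := by
    rw [hK]
    have : 0 ≤ 2 * (m : ℝ) ^ 3 * R := by positivity
    linarith
  have h1 : ∀ i l : Fin m, 1 + gp ν i l * |(k.transpose * (k' * a')) i l| ≤ K * (1 + G) := by
    intro i l
    obtain ⟨y, hy⟩ : ∃ y : ℝ, y = |(k.transpose * (k' * a')) i l| := ⟨_, rfl⟩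
    rw [← hy]
    have hy0 : 0 ≤ y := by rw [hy]; exact abs_nonneg _
    have h2 : gp ν i l * y ≤ 2 * (m : ℝ) ^ 3 * R * G := by
      unfold gp
      rcases le_or_gt i l with hil | hil
      · have : ν i - ν l ≤ 0 := sub_nonpos.mpr (hν hil)
        rw [max_eq_left this, zero_mul]
        positivity
      · have hnn : 0 ≤ ν i - ν l := sub_nonneg.mpr (hν hil.le)
        rw [max_eq_right hnn]
        have h3 : ∀ (p q : Fin m), (q : ℕ) = p + 1 → (l : ℕ) < q → q ≤ i →
            (ν q - ν p) * y ≤ 2 * (m : ℝ) ^ 2 * R * G := by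
          intro p q hpq hlq hqi
          have h4 := flg_ent hk hk' ha hs i l q hlq hqi
          rw [← hy] at h4
          have h5 : 0 ≤ ν q - ν p := sub_nonneg.mpr (hν (by rw [Fin.le_def]; omega))
          have h6 := hE p q hpq
          calc (ν q - ν p) * y ≤ (ν q - ν p) *
                ((m : ℝ) ^ 2 * R * Real.sqrt (fsq (Ek k q - Ek k' q))) :=
                mul_le_mul_of_nonneg_left h4 h5
            _ = 2 * (m : ℝ) ^ 2 * R *
                ((ν q - ν p) / 2 * Real.sqrt (fsq (Ek k q - Ek k' q))) := by ring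
            _ ≤ 2 * (m : ℝ) ^ 2 * R * G := mul_le_mul_of_nonneg_left h6 (by positivity)
        have h7 := flg_tel ν (y := y) (K := 2 * (m : ℝ) ^ 2 * R * G) (by positivity) l
          ((i : ℕ) - l) i (by
            have : (l : ℕ) < i := hil
            omega) h3
        refine h7.trans ?_
        have h8 : (((i : ℕ) - l : ℕ) : ℝ) ≤ m := by
          have : ((i : ℕ) - l) ≤ m := by
            have := i.2
            omega
          exact_mod_cast this
        calc (((i : ℕ) - l : ℕ) : ℝ) * (2 * (m : ℝ) ^ 2 * R * G) ≤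
              m * (2 * (m : ℝ) ^ 2 * R * G) := mul_le_mul_of_nonneg_right h8 (by positivity)
          _ = 2 * (m : ℝ) ^ 3 * R * G := by ring
    calc 1 + gp ν i l * y ≤ 1 + 2 * (m : ℝ) ^ 3 * R * G := by linarith
      _ ≤ K * (1 + G) := by
          rw [hK]
          have : 0 ≤ 2 * (m : ℝ) ^ 3 * R := by positivity
          nlinarith
  have h9 : ∀ i l : Fin m, 0 < 1 + gp ν i l * |(k.transpose * (k' * a')) i l| := by
    intro i l
    have := mul_nonneg (gp_nn ν i l) (abs_nonneg ((k.transpose * (k' * a')) i l))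
    linarith
  have h10 : ∏ i, ∏ l, (1 + gp ν i l * |(k.transpose * (k' * a')) i l|) ^ 2 ≤
      (K * (1 + G)) ^ (2 * (m * m)) := by
    calc ∏ i, ∏ l, (1 + gp ν i l * |(k.transpose * (k' * a')) i l|) ^ 2 ≤
          ∏ _i : Fin m, ∏ _l : Fin m, (K * (1 + G)) ^ 2 := by
          refine Finset.prod_le_prod (fun i _ => Finset.prod_nonneg fun l _ => sq_nonneg _)
            fun i _ => ?_
          refine Finset.prod_le_prod (fun l _ => sq_nonneg _) fun l _ => ?_
          exact pow_le_pow_left₀ (h9 i l).le (h1 i l) 2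
      _ = (K * (1 + G)) ^ (2 * (m * m)) := by
          simp only [Finset.prod_const, Finset.card_univ, Fintype.card_fin]
          rw [← pow_mul, ← pow_mul]
  have h11 : 0 < ∏ i, ∏ l, (1 + gp ν i l * |(k.transpose * (k' * a')) i l|) ^ 2 :=
    Finset.prod_pos fun i _ => Finset.prod_pos fun l _ => pow_pos (h9 i l) 2
  have h12 : ∏ i, ∏ l, ((1 + gp ν i l * |(k.transpose * (k' * a')) i l|) ^ 2)⁻¹ =
      (∏ i, ∏ l, (1 + gp ν i l * |(k.transpose * (k' * a')) i l|) ^ 2)⁻¹ := by
    simp only [Finset.prod_inv_distrib]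
  rw [h12, ← hK]
  have h13 : (0 : ℝ) < (1 + G) ^ (2 * (m * m)) := pow_pos (by linarith) _
  rw [mul_pow] at h10
  rw [inv_eq_one_div, div_le_iff₀ h13]
  have h14 : (1 : ℝ) ≤ K ^ (2 * (m * m)) * (1 + G) ^ (2 * (m * m)) *
      (∏ i, ∏ l, (1 + gp ν i l * |(k.transpose * (k' * a')) i l|) ^ 2)⁻¹ := by
    rw [← div_eq_mul_inv, le_div_iff₀ h11, one_mul]
    exact h10
  calc (1 : ℝ) ≤ K ^ (2 * (m * m)) * (1 + G) ^ (2 * (m * m)) *
      (∏ i, ∏ l, (1 + gp ν i l * |(k.transpose * (k' * a')) i l|) ^ 2)⁻¹ := h14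
    _ = _ := by ring

end Pool.Agent.H69.GK
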