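import Pool.Agent.H69.GK.QRD
import Pool.Agent.H34.GM.Targets

/-!
Row PHK of the page ghk: a continuous function on `GL_m`, invariant under the orthogonal group on
both sides, whose integrals against the test functions are those of the power function, is the
average `phi0` of the quotients `pw (z w) / pw w`; no Haar measure on the orthogonal group.
-/

namespace Pool.Agent.H69.GK

open MeasureTheory Pool.Agent.H34.GM

/-- the weights of the average -/
structure Kap (m : ℕ) (κ : Mat m → ℝ) : Prop where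
  cont : Continuous κ
  nn : ∀ z, 0 ≤ κ z
  supp : ∃ c : ℝ, 0 < c ∧ ∀ z, κ z ≠ 0 → sz z ≤ c ∧ c⁻¹ ≤ |z.det|
  left : ∀ u : Mat m, u * u.transpose = 1 → ∀ z, κ (u * z) = κ z
  one : ∫ z, κ (mt z) ∂(hm m) = 1

/-- the average of the quotients of the power function -/
noncomputable def phi0 {m : ℕ} (κ : Mat m → ℝ) (mu : Fin m → ℂ) (z : Mat m) : ℂ :=
  ∫ w, (κ (mt w) : ℂ) * (pw mu (z * mt w) / pw mu (mt w)) ∂(hm m)

/-- the compact parts of `GL_m` -/
def RR (m : ℕ) (c : ℝ) : Set (V m) := {z | sz (mt z) ≤ c ∧ c⁻¹ ≤ |(mt z).det|}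

lemma mt_cont {m : ℕ} : Continuous (fun z : V m => mt z) := continuous_id

lemma sz_cont {m : ℕ} : Continuous (fun z : Mat m => sz z) := by
  change Continuous fun z : V m => ‖z‖
  exact continuous_norm

lemma det_cont {m : ℕ} : Continuous (fun z : Mat m => z.det) := continuous_id.matrix_det

lemma RR_compact (m : ℕ) (c : ℝ) : IsCompact (RR m c) := by
  apply Metric.isCompact_of_isClosed_isBounded
  · exact (isClosed_le (sz_cont.comp mt_cont) continuous_const).inter
      (isClosed_le continuous_const (det_cont.comp mt_cont).abs)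
  · apply (Metric.isBounded_closedBall (x := (0 : V m)) (r := c)).subset
    intro z hz
    rw [mem_closedBall_zero_iff]
    exact hz.1

lemma RR_meas (m : ℕ) (c : ℝ) : MeasurableSet (RR m c) := (RR_compact m c).isClosed.measurableSet

lemma RR_det {m : ℕ} {c : ℝ} (hc : 0 < c) {z : V m} (hz : z ∈ RR m c) : (mt z).det ≠ 0 := by
  intro h
  have := hz.2
  rw [h, abs_zero] at this
  have h2 : 0 < c⁻¹ := inv_pos.mpr hc
  linarith

lemma RR_fin (hH : T_HAR) {m : ℕ} (hm1 : 1 ≤ m) {c : ℝ} (hc : 0 < c) : hm m (RR m c) < ⊤ :=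
  (hH m hm1).2.2.2 c hc

/-- extension by zero of a product -/
lemma cont_ext {X : Type*} [TopologicalSpace X] {U Z : Set X} (hU : IsOpen U) (hZ : IsClosed Z)
    (hZU : Z ⊆ U) {f k : X → ℂ} (hf : ContinuousOn f U) (hk : Continuous k)
    (hkZ : ∀ x, k x ≠ 0 → x ∈ Z) : Continuous (fun x => k x * f x) := by
  rw [continuous_iff_continuousAt]
  intro x
  by_cases hx : x ∈ U
  · exact hk.continuousAt.mul (hf.continuousAt (hU.mem_nhds hx))
  · have hx2 : x ∈ Zᶜ := fun h => hx (hZU h)
    have h1 : (fun x => k x * f x) =ᶠ[nhds x] fun _ => (0 : ℂ) := by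
      filter_upwards [hZ.isOpen_compl.mem_nhds hx2] with y hy
      have : k y = 0 := by
        by_contra hcon
        exact hy (hkZ y hcon)
      rw [this, zero_mul]
    exact (continuousAt_const (y := (0 : ℂ))).congr h1.symm

lemma int_RR (hH : T_HAR) {m : ℕ} (hm1 : 1 ≤ m) {c : ℝ} (hc : 0 < c) {f : V m → ℂ}
    (hf : Continuous f) (h0 : ∀ z, f z ≠ 0 → z ∈ RR m c) : Integrable f (hm m) := by
  have h1 : IntegrableOn f (RR m c) (hm m) := by
    haveI : IsFiniteMeasure ((hm m).restrict (RR m c)) :=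
      ⟨by rw [Measure.restrict_apply_univ]; exact RR_fin hH hm1 hc⟩
    obtain ⟨B, hB⟩ := (RR_compact m c).exists_bound_of_continuousOn hf.continuousOn
    refine Integrable.of_bound hf.aestronglyMeasurable B ?_
    exact (ae_restrict_iff' (RR_meas m c)).mpr (Filter.Eventually.of_forall hB)
  rw [← integrableOn_univ]
  refine h1.of_forall_diff_eq_zero MeasurableSet.univ fun z hz => ?_
  by_contra hcon
  exact hz.2 (h0 z hcon)

/-- nonempty open sets of invertible matrices have positive measure -/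
lemma hm_open {m : ℕ} {U : Set (V m)} (hU : IsOpen U) {z : V m} (hz : z ∈ U)
    (hd : (mt z).det ≠ 0) : 0 < hm m U := by
  rw [pos_iff_ne_zero]
  intro h0
  have hmeas : Measurable (fun z : V m => ENNReal.ofReal ((|(mt z).det| ^ m)⁻¹)) :=
    ENNReal.measurable_ofReal.comp
      (((det_cont.comp mt_cont).abs.measurable.pow_const m).inv)
  unfold hm at h0
  rw [withDensity_apply_eq_zero hmeas] at h0
  have h1 : IsOpen (U ∩ {z : V m | (mt z).det ≠ 0}) :=
    hU.inter (isOpen_ne.preimage (det_cont.comp mt_cont))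
  have h2 : 0 < (volume : Measure (V m)) (U ∩ {z : V m | (mt z).det ≠ 0}) :=
    h1.measure_pos _ ⟨z, hz, hd⟩
  have h3 : U ∩ {z : V m | (mt z).det ≠ 0} ⊆
      {x : V m | ENNReal.ofReal ((|(mt x).det| ^ m)⁻¹) ≠ 0} ∩ U := by
    intro y hy
    refine ⟨?_, hy.1⟩
    have : 0 < (|(mt y).det| ^ m)⁻¹ := inv_pos.mpr (pow_pos (abs_pos.mpr hy.2) m)
    exact (ENNReal.ofReal_pos.mpr this).ne'
  exact absurd (measure_mono_null h3 h0) h2.ne'

/-- the quotient is continuous -/
lemma quo_cont (hP : T_PWC) {m : ℕ} (hm1 : 1 ≤ m) (mu : Fin m → ℂ) :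
    ContinuousOn (fun p : Mat m × V m => pw mu (p.1 * mt p.2) / pw mu (mt p.2))
      ({z | z.det ≠ 0} ×ˢ {w | (mt w).det ≠ 0}) := by
  have h0 := (hP m hm1 mu).1
  have h1 : ContinuousOn (fun p : Mat m × V m => pw mu (p.1 * mt p.2))
      ({z | z.det ≠ 0} ×ˢ {w | (mt w).det ≠ 0}) := by
    refine ContinuousOn.comp (g := fun z : Mat m => pw mu z)
      (f := fun p : Mat m × V m => p.1 * mt p.2) (t := {z : Mat m | z.det ≠ 0}) h0 ?_ ?_
    · exact (continuous_fst.matrix_mul (mt_cont.comp continuous_snd)).continuousOn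
    · intro p hp
      change (p.1 * mt p.2).det ≠ 0
      rw [Matrix.det_mul]
      exact mul_ne_zero hp.1 hp.2
  have h2 : ContinuousOn (fun p : Mat m × V m => pw mu (mt p.2))
      ({z | z.det ≠ 0} ×ˢ {w | (mt w).det ≠ 0}) := by
    refine ContinuousOn.comp (g := fun z : Mat m => pw mu z)
      (f := fun p : Mat m × V m => mt p.2) (t := {z : Mat m | z.det ≠ 0}) h0 ?_ ?_
    · exact (mt_cont.comp continuous_snd).continuousOn
    · intro p hp
      exact hp.2
  exact h1.div h2 fun p hp => pw_ne0 mu hp.2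

lemma kq_cont (hP : T_PWC) {m : ℕ} (hm1 : 1 ≤ m) (mu : Fin m → ℂ) {κ : Mat m → ℝ}
    (hκ : Kap m κ) :
    ContinuousOn (fun p : Mat m × V m =>
      (κ (mt p.2) : ℂ) * (pw mu (p.1 * mt p.2) / pw mu (mt p.2)))
      ({z | z.det ≠ 0} ×ˢ Set.univ) := by
  obtain ⟨c, hc, hs⟩ := hκ.supp
  have hkc : Continuous (fun p : Mat m × V m => (κ (mt p.2) : ℂ)) :=
    Complex.continuous_ofReal.comp (hκ.cont.comp (mt_cont.comp continuous_snd))
  intro p hp
  refine ContinuousAt.continuousWithinAt ?_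
  by_cases hd : (mt p.2).det = 0
  · have h1 : (fun p : Mat m × V m =>
        (κ (mt p.2) : ℂ) * (pw mu (p.1 * mt p.2) / pw mu (mt p.2))) =ᶠ[nhds p]
        fun _ => (0 : ℂ) := by
      have h2 : IsOpen {q : Mat m × V m | |(mt q.2).det| < c⁻¹} :=
        isOpen_lt ((det_cont.comp (mt_cont.comp continuous_snd)).abs) continuous_const
      have h3 : p ∈ {q : Mat m × V m | |(mt q.2).det| < c⁻¹} := by
        change |(mt p.2).det| < c⁻¹
        rw [hd, abs_zero]
        exact inv_pos.mpr hc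
      filter_upwards [h2.mem_nhds h3] with q hq
      have : κ (mt q.2) = 0 := by
        by_contra hcon
        exact absurd (hs _ hcon).2 (not_le.mpr hq)
      rw [this, Complex.ofReal_zero, zero_mul]
    exact (continuousAt_const (y := (0 : ℂ))).congr h1.symm
  · have hop : IsOpen (({z : Mat m | z.det ≠ 0}) ×ˢ {w : V m | (mt w).det ≠ 0}) :=
      (isOpen_ne.preimage det_cont).prod (isOpen_ne.preimage (det_cont.comp mt_cont))
    exact hkc.continuousAt.mul ((quo_cont hP hm1 mu).continuousAt (hop.mem_nhds ⟨hp.1, hd⟩))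

/-- the average as an integral over a compact part -/
lemma phi0_eq {m : ℕ} {mu : Fin m → ℂ} {κ : Mat m → ℝ} {c : ℝ}
    (hs : ∀ z, κ z ≠ 0 → sz z ≤ c ∧ c⁻¹ ≤ |z.det|) (z : Mat m) :
    phi0 κ mu z = ∫ w in RR m c,
      (κ (mt w) : ℂ) * (pw mu (z * mt w) / pw mu (mt w)) ∂(hm m) := by
  unfold phi0
  symm
  refine setIntegral_eq_integral_of_forall_compl_eq_zero fun w hw => ?_
  have : κ (mt w) = 0 := by
    by_contra hcon
    exact hw (hs _ hcon)
  rw [this, Complex.ofReal_zero, zero_mul]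

lemma phi0_cont (hH : T_HAR) (hP : T_PWC) {m : ℕ} (hm1 : 1 ≤ m) (mu : Fin m → ℂ)
    {κ : Mat m → ℝ} (hκ : Kap m κ) : ContinuousOn (phi0 κ mu) {z | z.det ≠ 0} := by
  obtain ⟨c, hc, hs⟩ := hκ.supp
  haveI : IsFiniteMeasure ((hm m).restrict (RR m c)) :=
    ⟨by rw [Measure.restrict_apply_univ]; exact RR_fin hH hm1 hc⟩
  have h1 := continuousOn_integral_of_compact_support (μ := (hm m).restrict (RR m c))
    (f := fun (z : Mat m) (w : V m) => (κ (mt w) : ℂ) * (pw mu (z * mt w) / pw mu (mt w)))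
    (RR_compact m c) (kq_cont hP hm1 mu hκ) (fun p x _ hx => by
      have : κ (mt x) = 0 := by
        by_contra hcon
        exact hx (hs _ hcon)
      rw [this, Complex.ofReal_zero, zero_mul])
  refine h1.congr fun z _ => ?_
  exact phi0_eq hs z

lemma phi0_left {m : ℕ} (mu : Fin m → ℂ) (κ : Mat m → ℝ) {u : Mat m}
    (hu : u * u.transpose = 1) (z : Mat m) : phi0 κ mu (u * z) = phi0 κ mu z := by
  unfold phi0
  simp only [Matrix.mul_assoc, pw_orth mu hu]

lemma phi0_right (hA : T_HAC) {m : ℕ} (hm1 : 1 ≤ m) (mu : Fin m → ℂ) {κ : Mat m → ℝ}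
    (hκ : Kap m κ) {u : Mat m} (hu : u * u.transpose = 1) (z : Mat m) :
    phi0 κ mu (z * u) = phi0 κ mu z := by
  have hd : u.det ≠ 0 := by
    have := congrArg Matrix.det hu
    rw [Matrix.det_mul, Matrix.det_transpose, Matrix.det_one] at this
    intro h
    rw [h] at this
    norm_num at this
  unfold phi0
  rw [← ((hA m hm1).1 u hd (fun w => (κ (mt w) : ℂ) *
    (pw mu (z * mt w) / pw mu (mt w)))).1]
  refine integral_congr_ae (Filter.Eventually.of_forall fun w => ?_)
  change (κ (mt w) : ℂ) * (pw mu (z * u * mt w) / pw mu (mt w)) =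
    (κ (u * mt w) : ℂ) * (pw mu (z * (u * mt w)) / pw mu (u * mt w))
  rw [hκ.left u hu, pw_orth mu hu, Matrix.mul_assoc]

/-- the average of the power function over the test functions -/
lemma int_tst_quo (hA : T_HAC) {m : ℕ} (hm1 : 1 ≤ m) (mu : Fin m → ℂ) {k : Mat m → ℂ}
    (hk : Tst m k) {w : Mat m} (hw : w.det ≠ 0) :
    ∫ z, k (mt z) * (pw mu (mt z * w) / pw mu w) ∂(hm m) =
      ∫ z, k (mt z) * pw mu (mt z) ∂(hm m) := by
  obtain ⟨u, a, hu, hwa, ha, hap⟩ := exists_qr w hw
  have hud : u.det ≠ 0 := by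
    intro h
    apply hw
    rw [hwa, Matrix.det_mul, h, zero_mul]
  have had : a.det ≠ 0 := by
    intro h
    apply hw
    rw [hwa, Matrix.det_mul, h, mul_zero]
  rw [← ((hA m hm1).1 u hud (fun z => k (mt z) * pw mu (mt z))).2]
  have hm0 : ∀ᵐ z ∂(hm m), (mt z).det ≠ 0 ∨ k (mt z) = 0 := by
    obtain ⟨c, hc, hs⟩ := hk.supp
    refine Filter.Eventually.of_forall fun z => ?_
    by_cases h0 : k (mt z) = 0
    · exact Or.inr h0
    · refine Or.inl fun h => ?_
      have := (hs _ h0).2
      rw [h, abs_zero] at this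
      have h2 : 0 < c⁻¹ := inv_pos.mpr hc
      linarith
  refine integral_congr_ae (hm0.mono fun z hz => ?_)
  change k (mt z) * (pw mu (mt z * w) / pw mu w) = k (mt z * u) * pw mu (mt z * u)
  rw [hk.right u hu]
  rcases hz with hz | hz
  · have h1 : pw mu w = pw mu a := by rw [hwa, pw_orth mu hu]
    have h2 : pw mu (mt z * w) = pw mu (mt z * u) * pw mu a := by
      rw [hwa, ← Matrix.mul_assoc]
      exact pw_mul_tri mu (by rw [Matrix.det_mul]; exact mul_ne_zero hz hud) had ha
    rw [h1, h2, mul_div_assoc, div_self (pw_ne0 mu had), mul_one]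
  · rw [hz, zero_mul, zero_mul]

lemma tst_closed {m : ℕ} (c : ℝ) :
    IsClosed {z : Mat m | sz z ≤ c ∧ c⁻¹ ≤ |z.det|} :=
  (isClosed_le sz_cont continuous_const).inter (isClosed_le continuous_const det_cont.abs)

lemma tst_sub {m : ℕ} {c : ℝ} (hc : 0 < c) :
    {z : Mat m | sz z ≤ c ∧ c⁻¹ ≤ |z.det|} ⊆ {z | z.det ≠ 0} := by
  intro z hz h
  have := hz.2
  rw [h, abs_zero] at this
  have h2 : 0 < c⁻¹ := inv_pos.mpr hc
  linarith

/-- the averages have the same integrals against the test functions as the power function -/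
lemma int_tst_phi0 (hH : T_HAR) (hA : T_HAC) (hP : T_PWC) {m : ℕ} (hm1 : 1 ≤ m)
    (mu : Fin m → ℂ) {κ : Mat m → ℝ} (hκ : Kap m κ) {k : Mat m → ℂ} (hk : Tst m k) :
    ∫ z, k (mt z) * phi0 κ mu (mt z) ∂(hm m) = ∫ z, k (mt z) * pw mu (mt z) ∂(hm m) := by
  obtain ⟨c, hc, hs⟩ := hκ.supp
  obtain ⟨c', hc', hs'⟩ := hk.supp
  haveI i1 : IsFiniteMeasure ((hm m).restrict (RR m c)) :=
    ⟨by rw [Measure.restrict_apply_univ]; exact RR_fin hH hm1 hc⟩
  haveI i2 : IsFiniteMeasure ((hm m).restrict (RR m c')) :=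
    ⟨by rw [Measure.restrict_apply_univ]; exact RR_fin hH hm1 hc'⟩
  have h1 : ∫ z, k (mt z) * phi0 κ mu (mt z) ∂(hm m) =
      ∫ z in RR m c', ∫ w in RR m c, k (mt z) * ((κ (mt w) : ℂ) *
        (pw mu (mt z * mt w) / pw mu (mt w))) ∂(hm m) ∂(hm m) := by
    rw [← setIntegral_eq_integral_of_forall_compl_eq_zero (s := RR m c') fun z hz => by
      have : k (mt z) = 0 := by
        by_contra hcon
        exact hz (hs' _ hcon)
      rw [this, zero_mul]]
    refine integral_congr_ae (Filter.Eventually.of_forall fun z => ?_)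
    change k (mt z) * phi0 κ mu (mt z) = _
    rw [phi0_eq hs, ← integral_const_mul]
  have hcon : Continuous (fun p : V m × V m => k (mt p.1) * ((κ (mt p.2) : ℂ) *
        (pw mu (mt p.1 * mt p.2) / pw mu (mt p.2)))) := by
    have hU : IsOpen (({z : V m | (mt z).det ≠ 0}) ×ˢ (Set.univ : Set (V m))) :=
      (isOpen_ne.preimage (det_cont.comp mt_cont)).prod isOpen_univ
    have hZ : IsClosed ((RR m c') ×ˢ (Set.univ : Set (V m))) :=
      (RR_compact m c').isClosed.prod isClosed_univ
    refine cont_ext hU hZ ?_ ?_ ?_ ?_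
    · intro p hp
      exact ⟨RR_det hc' hp.1, trivial⟩
    · exact (kq_cont hP hm1 mu hκ).comp
        (f := fun p : V m × V m => ((mt p.1, p.2) : Mat m × V m))
        (((mt_cont.comp continuous_fst).prodMk continuous_snd).continuousOn)
        (fun p hp => hp)
    · exact hk.cont.comp (mt_cont.comp continuous_fst)
    · intro p hp
      exact ⟨hs' _ hp, trivial⟩
  have h2 : Integrable (Function.uncurry fun (z w : V m) => k (mt z) * ((κ (mt w) : ℂ) *
        (pw mu (mt z * mt w) / pw mu (mt w))))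
      (((hm m).restrict (RR m c')).prod ((hm m).restrict (RR m c))) := by
    refine Continuous.integrable_of_hasCompactSupport hcon ?_
    refine HasCompactSupport.intro ((RR_compact m c').prod (RR_compact m c)) fun p hp => ?_
    by_contra hcon
    apply hp
    have h3 : k (mt p.1) ≠ 0 := fun h => hcon (by
      change k (mt p.1) * _ = 0
      rw [h, zero_mul])
    have h4 : κ (mt p.2) ≠ 0 := fun h => hcon (by
      change k (mt p.1) * ((κ (mt p.2) : ℂ) * _) = 0
      rw [h, Complex.ofReal_zero, zero_mul, mul_zero])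
    exact ⟨hs' _ h3, hs _ h4⟩
  rw [h1, integral_integral_swap h2]
  have h5 : ∀ w ∈ RR m c, (∫ z in RR m c', k (mt z) * ((κ (mt w) : ℂ) *
        (pw mu (mt z * mt w) / pw mu (mt w))) ∂(hm m)) =
      (κ (mt w) : ℂ) * ∫ z, k (mt z) * pw mu (mt z) ∂(hm m) := by
    intro w hw
    calc (∫ z in RR m c', k (mt z) * ((κ (mt w) : ℂ) *
          (pw mu (mt z * mt w) / pw mu (mt w))) ∂(hm m))
        = ∫ z, k (mt z) * ((κ (mt w) : ℂ) *
          (pw mu (mt z * mt w) / pw mu (mt w))) ∂(hm m) := by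
          refine setIntegral_eq_integral_of_forall_compl_eq_zero fun z hz => ?_
          have : k (mt z) = 0 := by
            by_contra hcon
            exact hz (hs' _ hcon)
          rw [this, zero_mul]
      _ = ∫ z, (κ (mt w) : ℂ) * (k (mt z) *
          (pw mu (mt z * mt w) / pw mu (mt w))) ∂(hm m) := by
          refine integral_congr_ae (Filter.Eventually.of_forall fun z => ?_)
          change k (mt z) * ((κ (mt w) : ℂ) * _) = (κ (mt w) : ℂ) * (k (mt z) * _)
          ring
      _ = (κ (mt w) : ℂ) * ∫ z, k (mt z) * pw mu (mt z) ∂(hm m) := by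
          rw [integral_const_mul, int_tst_quo hA hm1 mu hk (RR_det hc hw)]
  rw [setIntegral_congr_fun (RR_meas m c) h5, integral_mul_const]
  have h6 : ∫ w in RR m c, (κ (mt w) : ℂ) ∂(hm m) = 1 := by
    rw [setIntegral_eq_integral_of_forall_compl_eq_zero fun w hw => by
      have : κ (mt w) = 0 := by
        by_contra hcon
        exact hw (hs _ hcon)
      rw [this, Complex.ofReal_zero], integral_complex_ofReal, hκ.one, Complex.ofReal_one]
  rw [h6, one_mul]

end Pool.Agent.H69.GK
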