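import Pool.Agent.H69.GK.HKW
import Pool.Agent.H91.GHK.JKD
import Pool.Agent.H34.GU.Fin

/-!
The rows K1A and HKW of the page ghk without hypotheses.
-/

namespace Pool.Agent.H69.GK

open Pool.Agent.H34.GZ Pool.Agent.H34.GU

theorem c_K1A : T_K1A :=
  pf_K1A g_MSR g_HAR g_HAC g_PWC a_VLM a_RTI b_ALU (Pool.Agent.H20.GK.pf_TUB b_APU)
    Pool.Agent.H91.GHK.pf_JKZ0

theorem c_HKW : Pool.Agent.H68.GHK.T_HKW := hkw_of a_VLM a_RTI b_ALU c_K1A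

end Pool.Agent.H69.GK
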