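import Pool.Agent.H69.GK.K1A
import Pool.Agent.H68.GHK.Targets

/-!
Row HKW of the page ghk, from K1A.
-/

namespace Pool.Agent.H69.GK

open MeasureTheory Pool.Agent.H34.GM Pool.Agent.H34.GZ Pool.Agent.H34.GU Pool.Agent.H34.GA
  Pool.Agent.H40.GHK Pool.Agent.H31.GK Pool.Agent.H14.GHK Pool.Agent.H23.GHK

lemma Bl_compact (m : ℕ) (r : ℝ) : IsCompact (Bl m r) := by
  apply Metric.isCompact_of_isClosed_isBounded
  · exact isClosed_le (sz_cont.comp ((mt_cont (m := m)).sub continuous_const)) continuous_const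
  · apply (Metric.isBounded_closedBall (x := (fun i j => (1 : Mat m) i j : V m)) (r := r)).subset
    intro z hz
    rw [mem_closedBall_iff_norm]
    exact hz

lemma hm_vol {m : ℕ} (s : Set (V m)) (hs : MeasurableSet s) (f : V m → ℝ) :
    ∫ z in s, f z ∂(hm m) = ∫ z in s, (|(mt z).det| ^ m)⁻¹ * f z := by
  have hmeas : Measurable (fun z : V m => ENNReal.ofReal ((|(mt z).det| ^ m)⁻¹)) :=
    ENNReal.measurable_ofReal.comp
      (((det_cont.comp mt_cont).abs.measurable.pow_const m).inv)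
  have h1 : (hm m).restrict s = (volume.restrict s).withDensity
      (fun z : V m => ENNReal.ofReal ((|(mt z).det| ^ m)⁻¹)) := by
    unfold hm
    rw [restrict_withDensity hs]
  rw [h1, integral_withDensity_eq_integral_toReal_smul hmeas
    (Filter.Eventually.of_forall fun z => ENNReal.ofReal_lt_top)]
  refine integral_congr_ae (Filter.Eventually.of_forall fun z => ?_)
  change (ENNReal.ofReal ((|(mt z).det| ^ m)⁻¹)).toReal • f z = _
  rw [ENNReal.toReal_ofReal (by positivity), smul_eq_mul]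

theorem hkw_of (hV : T_VLM) (hR : T_RTI) (hA : T_ALU) (hK : T_K1A) :
    Pool.Agent.H68.GHK.T_HKW := by
  intro m hm1
  have hm0 : (1 : ℝ) ≤ m := by exact_mod_cast hm1
  obtain ⟨r, hr, hr1, C, hC, h1⟩ := hK m hm1
  refine ⟨r, hr, fun M => ?_⟩
  obtain ⟨K, hK0⟩ := (Bl_compact m r).exists_bound_of_continuousOn
    ((det_cont.comp (mt_cont (m := m))).continuousOn)
  obtain ⟨K1, hK1e⟩ : ∃ K1 : ℝ, K1 = max K 1 := ⟨_, rfl⟩
  have hK1 : 1 ≤ K1 := by rw [hK1e]; exact le_max_right _ _
  refine ⟨K1 ^ m * C, by positivity, ?_⟩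
  intro N _ T D hS F lam mu hF hn _ hmono
  have hE : EigU m N T F lam mu := hF.toEigU
  have hI := EigU_ivf hE
  have hH := h1 N T D hS F lam mu hE hn hmono
  have hmB : MeasurableSet (Bl m r) := (Bl_compact m r).isClosed.measurableSet
  have hdet : ∀ z ∈ Bl m r, (mt z).det ≠ 0 := by
    intro z hz
    refine near_inv ?_
    have h4 := fsq_le_sz (mt z - 1)
    have h5 : sz (mt z - 1) ≤ r := hz
    have h6 : 0 ≤ m * sz (mt z - 1) := mul_nonneg (by positivity) (norm_nonneg _)
    have h7 : m * sz (mt z - 1) ≤ 1 / 4 := by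
      calc m * sz (mt z - 1) ≤ m * (1 / (4 * (m : ℝ))) :=
            mul_le_mul_of_nonneg_left (h5.trans hr1) (by positivity)
        _ = 1 / 4 := by field_simp
    nlinarith
  have hcc : ContinuousOn (fun z : V m => Pool.Agent.H14.GHK.cf D F F (mt z))
      {z | (mt z).det ≠ 0} := by
    refine ContinuousOn.comp (g := Pool.Agent.H14.GHK.cf D F F) (f := fun z : V m => mt z)
      (t := {z : Mat m | z.det ≠ 0}) (cf_cont hV hS.one_le hS.dom hI hI)
      (mt_cont.continuousOn) (fun z hz => hz)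
  have hc2 : ContinuousOn (fun z : V m => ‖Pool.Agent.H14.GHK.cf D F F (mt z)‖ ^ 2)
      (Bl m r) := (hcc.norm.pow 2).mono fun z hz => hdet z hz
  have hHn : Pool.Agent.H68.GHK.Hn r D F =
      ∫ z in Bl m r, ‖Pool.Agent.H14.GHK.cf D F F (mt z)‖ ^ 2 := by
    unfold Pool.Agent.H68.GHK.Hn
    refine setIntegral_congr_fun hmB fun z hz => ?_
    have := ip_sym hV hR hA hS hI (hdet z hz)
    change ‖ip D (tF (mt z) F) F‖ ^ 2 = _
    rw [this]
  have hHr : Hr r D F = ∫ z in Bl m r, (|(mt z).det| ^ m)⁻¹ *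
      ‖Pool.Agent.H14.GHK.cf D F F (mt z)‖ ^ 2 := by
    unfold Hr
    rw [hm_vol _ hmB]
    refine setIntegral_congr_fun hmB fun z hz => ?_
    have := ip_sym hV hR hA hS hI (hdet z hz)
    change (|(mt z).det| ^ m)⁻¹ * ‖ip D (tF (mt z) F) F‖ ^ 2 = _
    rw [this]
  refine ⟨?_, ?_⟩
  · have hint : IntegrableOn (fun z : V m => K1 ^ m * ((|(mt z).det| ^ m)⁻¹ *
        ‖Pool.Agent.H14.GHK.cf D F F (mt z)‖ ^ 2)) (Bl m r) := by
      refine ContinuousOn.integrableOn_compact (Bl_compact m r) ?_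
      refine continuousOn_const.mul (ContinuousOn.mul ?_ hc2)
      refine ContinuousOn.inv₀ (((det_cont.comp mt_cont).abs.pow m).continuousOn) fun z hz => ?_
      exact pow_ne_zero m (abs_ne_zero.mpr (hdet z hz))
    have h2 : Pool.Agent.H68.GHK.Hn r D F ≤ K1 ^ m * Hr r D F := by
      rw [hHn, hHr, ← integral_const_mul]
      refine integral_mono_of_nonneg (Filter.Eventually.of_forall fun z => sq_nonneg _) hint ?_
      refine (ae_restrict_iff' hmB).mpr (Filter.Eventually.of_forall fun z hz => ?_)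
      change ‖Pool.Agent.H14.GHK.cf D F F (mt z)‖ ^ 2 ≤ K1 ^ m * ((|(mt z).det| ^ m)⁻¹ *
        ‖Pool.Agent.H14.GHK.cf D F F (mt z)‖ ^ 2)
      have h3 : 0 < |(mt z).det| ^ m := pow_pos (abs_pos.mpr (hdet z hz)) m
      have h4 : |(mt z).det| ^ m ≤ K1 ^ m := by
        refine pow_le_pow_left₀ (abs_nonneg _) ?_ m
        have h5 := hK0 z hz
        rw [hK1e]
        exact le_trans h5 (le_max_left _ _)
      have h6 : 1 ≤ K1 ^ m * (|(mt z).det| ^ m)⁻¹ := by
        rw [← div_eq_mul_inv, one_le_div h3]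
        exact h4
      calc ‖Pool.Agent.H14.GHK.cf D F F (mt z)‖ ^ 2 =
            1 * ‖Pool.Agent.H14.GHK.cf D F F (mt z)‖ ^ 2 := (one_mul _).symm
        _ ≤ (K1 ^ m * (|(mt z).det| ^ m)⁻¹) *
            ‖Pool.Agent.H14.GHK.cf D F F (mt z)‖ ^ 2 :=
            mul_le_mul_of_nonneg_right h6 (sq_nonneg _)
        _ = _ := by ring
    calc Pool.Agent.H68.GHK.Hn r D F ≤ K1 ^ m * Hr r D F := h2
      _ ≤ K1 ^ m * (C * (Wg (fun j => (mu j).im))⁻¹) :=
          mul_le_mul_of_nonneg_left hH (by positivity)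
      _ = K1 ^ m * C / Pool.Agent.H68.GHK.Wt mu := by
          rw [div_eq_mul_inv, mul_assoc]
          rfl
  · rw [hHn]
    have hint : IntegrableOn (fun z : V m => ‖Pool.Agent.H14.GHK.cf D F F (mt z)‖ ^ 2)
        (Bl m r) := ContinuousOn.integrableOn_compact (Bl_compact m r) hc2
    rw [setIntegral_pos_iff_support_of_nonneg_ae
      (Filter.Eventually.of_forall fun z => sq_nonneg _) hint]
    have hO : IsOpen ({z : V m | (mt z).det ≠ 0} ∩
        (fun z : V m => Pool.Agent.H14.GHK.cf D F F (mt z)) ⁻¹' {0}ᶜ) :=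
      hcc.isOpen_inter_preimage (isOpen_ne.preimage (det_cont.comp mt_cont))
        isOpen_compl_singleton
    have hU : IsOpen {z : V m | sz (mt z - 1) < r} :=
      isOpen_lt (sz_cont.comp ((mt_cont (m := m)).sub continuous_const)) continuous_const
    have hne : (({z : V m | (mt z).det ≠ 0} ∩
        (fun z : V m => Pool.Agent.H14.GHK.cf D F F (mt z)) ⁻¹' {0}ᶜ) ∩
        {z : V m | sz (mt z - 1) < r}).Nonempty := by
      refine ⟨fun i j => (1 : Mat m) i j, ⟨?_, ?_⟩, ?_⟩
      · change (1 : Mat m).det ≠ 0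
        rw [Matrix.det_one]
        exact one_ne_zero
      · change Pool.Agent.H14.GHK.cf D F F (1 : Mat m) ≠ 0
        have h3 : tF (1 : Mat m)⁻¹ F = F := by
          funext g x
          unfold tF
          rw [inv_one, Matrix.mul_one]
        unfold Pool.Agent.H14.GHK.cf
        rw [h3]
        have h7 : ip D F F = ((nU D F : ℝ) : ℂ) := by
          unfold ip nU
          push_cast
          refine Finset.sum_congr rfl fun x _ => ?_
          rw [← integral_complex_ofReal]
          refine integral_congr_ae (Filter.Eventually.of_forall fun z => ?_)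
          change F (mt z) x * (starRingEnd ℂ) (F (mt z) x) = ((‖F (mt z) x‖ ^ 2 : ℝ) : ℂ)
          rw [Complex.mul_conj, Complex.normSq_eq_norm_sq]
        rw [h7, hn, Complex.ofReal_one]
        exact one_ne_zero
      · change sz ((1 : Mat m) - 1) < r
        rw [sub_self]
        have : sz (0 : Mat m) = 0 := by
          unfold sz
          exact norm_zero
        rw [this]
        exact hr
    have h8 := (hO.inter hU).measure_pos volume hne
    refine h8.trans_le (measure_mono fun z hz => ⟨?_, ?_⟩)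
    · have h9 : Pool.Agent.H14.GHK.cf D F F (mt z) ≠ 0 := hz.1.2
      exact pow_ne_zero 2 (norm_ne_zero_iff.mpr h9)
    · have h10 : sz (mt z - 1) < r := hz.2
      exact h10.le

theorem pf_HKW (hM : T_MSR) (hH : T_HAR) (hHC : T_HAC) (hPC : T_PWC) (hV : T_VLM)
    (hR : T_RTI) (hA : T_ALU) (hT : Pool.Agent.H20.GK.T_TUB) (hJ : T_JKZ) :
    Pool.Agent.H68.GHK.T_HKW :=
  hkw_of hV hR hA (pf_K1A hM hH hHC hPC hV hR hA hT hJ)

end Pool.Agent.H69.GK
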