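import Pool.Agent.H69.GK.K1D
import Pool.Agent.H14.GHK.PHF
import Pool.Agent.H20.GK.TUB
import Pool.Agent.H31.GK.TG2

/-!
Row K1A of the page ghk: the matrix coefficient of a spherical form near the unit matrix.
-/

namespace Pool.Agent.H69.GK

open MeasureTheory Pool.Agent.H34.GM Pool.Agent.H34.GZ Pool.Agent.H34.GU Pool.Agent.H34.GA
  Pool.Agent.H40.GHK Pool.Agent.H31.GK Pool.Agent.H14.GHK Pool.Agent.H23.GHK

/-- the Plancherel density -/
noncomputable def Wg {m : ℕ} (ν : Fin m → ℝ) : ℝ :=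
  ∏ i : Fin m, ∏ j : Fin m, if i < j then 1 + |ν j - ν i| else 1

lemma Pw_Wg {m : ℕ} (ν : Fin m → ℝ) : Pw ν = (Wg ν)⁻¹ := by
  have h1 : ∏ i, ∏ l, (1 + gp ν i l) = Wg ν := by
    have h2 : ∀ i l : Fin m, 1 + gp ν i l =
        (if l < i then 1 + gp ν i l else 1) * (if i < l then 1 + gp ν i l else 1) := by
      intro i l
      rcases lt_trichotomy i l with h | h | h
      · rw [if_neg (not_lt.mpr h.le), if_pos h, one_mul]
      · subst h
        rw [if_neg (lt_irrefl _), mul_one]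
        unfold gp
        rw [sub_self, max_self, add_zero]
      · rw [if_pos h, if_neg (not_lt.mpr h.le), mul_one]
    have h3 : ∏ i, ∏ l, (1 + gp ν i l) =
        (∏ i, ∏ l, if l < i then 1 + gp ν i l else 1) *
          ∏ i, ∏ l, if i < l then 1 + gp ν i l else 1 := by
      rw [← Finset.prod_mul_distrib]
      refine Finset.prod_congr rfl fun i _ => ?_
      rw [← Finset.prod_mul_distrib]
      exact Finset.prod_congr rfl fun l _ => h2 i l
    rw [h3, Finset.prod_comm, ← Finset.prod_mul_distrib]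
    unfold Wg
    refine Finset.prod_congr rfl fun i _ => ?_
    rw [← Finset.prod_mul_distrib]
    refine Finset.prod_congr rfl fun l _ => ?_
    by_cases h : i < l
    · rw [if_pos h, if_pos h, if_pos h]
      unfold gp
      rcases le_total (ν i) (ν l) with h4 | h4
      · rw [max_eq_right (sub_nonneg.mpr h4), max_eq_left (sub_nonpos.mpr h4), add_zero,
          mul_one, abs_of_nonneg (sub_nonneg.mpr h4)]
      · rw [max_eq_left (sub_nonpos.mpr h4), max_eq_right (sub_nonneg.mpr h4), add_zero,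
          one_mul, abs_of_nonpos (sub_nonpos.mpr h4), neg_sub]
    · rw [if_neg h, if_neg h, if_neg h, one_mul]
  rw [← h1]
  unfold Pw
  simp only [Finset.prod_inv_distrib]

lemma Wg_pos {m : ℕ} (ν : Fin m → ℝ) : 0 < Wg ν := by
  unfold Wg
  refine Finset.prod_pos fun i _ => Finset.prod_pos fun j _ => ?_
  split_ifs
  · positivity
  · exact one_pos

lemma ip_conj {m N : ℕ} [NeZero N] (D : Set (V m)) (F G : Mat m → VN m N → ℂ) :
    ip D G F = (starRingEnd ℂ) (ip D F G) := by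
  unfold ip
  rw [map_sum]
  refine Finset.sum_congr rfl fun x _ => ?_
  rw [← integral_conj]
  refine integral_congr_ae (Filter.Eventually.of_forall fun z => ?_)
  change G (mt z) x * (starRingEnd ℂ) (F (mt z) x) =
    (starRingEnd ℂ) (F (mt z) x * (starRingEnd ℂ) (G (mt z) x))
  rw [map_mul, Complex.conj_conj, mul_comm]

/-- the matrix coefficient at `z` and at `z⁻¹` -/
lemma ip_sym (hV : T_VLM) (hR : T_RTI) (hA : T_ALU) {m N : ℕ} [NeZero N]
    {T : ℕ → Finset (ZM m)} {D : Set (V m)} (hS : SysZ m N T D) {F : Mat m → VN m N → ℂ}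
    (hF : Ivf F) {z : Mat m} (hz : z.det ≠ 0) :
    ‖ip D (tF z F) F‖ = ‖Pool.Agent.H14.GHK.cf D F F z‖ := by
  have h1 : (1 : Mat m).det ≠ 0 := by rw [Matrix.det_one]; exact one_ne_zero
  have h2 := ip_tr2 hV hR hA hS hF hF hz h1
  have h3 : tF (1 : Mat m) F = F := by
    funext g x
    unfold tF
    rw [Matrix.mul_one]
  rw [h3, Matrix.mul_one] at h2
  unfold Pool.Agent.H14.GHK.cf
  rw [← h2, ip_conj, RCLike.norm_conj]

lemma nz_of_one {m N : ℕ} [NeZero N] {T : ℕ → Finset (ZM m)} {D : Set (V m)}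
    (hS : SysZ m N T D) {F : Mat m → VN m N → ℂ} (hn : nU D F = 1) : NZ F := by
  by_contra hcon
  unfold NZ at hcon
  push Not at hcon
  have h0 : nU D F = 0 := by
    unfold nU
    refine Finset.sum_eq_zero fun x _ => ?_
    rw [setIntegral_congr_fun (g := fun _ => (0 : ℝ)) hS.dom.meas, integral_zero]
    intro z hz
    have hd : (mt z).det ≠ 0 := by
      intro h
      have h1 := (hS.dom.shell z hz).1
      unfold aN at h1
      have hm : (0 : ℝ) < m := by exact_mod_cast hS.one_le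
      rw [h, abs_zero, Real.zero_rpow (by positivity)] at h1
      linarith
    change ‖F (mt z) x‖ ^ 2 = 0
    rw [hcon (mt z) x hd, norm_zero]
    norm_num
  rw [h0] at hn
  exact zero_ne_one hn

/-- row K1A -/
def T_K1A : Prop := ∀ m : ℕ, 1 ≤ m → ∃ r : ℝ, 0 < r ∧ r ≤ 1 / (4 * (m : ℝ)) ∧ ∃ C : ℝ, 0 < C ∧
  ∀ (N : ℕ) [NeZero N] (T : ℕ → Finset (ZM m)) (D : Set (V m)), SysZ m N T D →
  ∀ (F : Mat m → VN m N → ℂ) (lam : ℕ → ℂ) (mu : Fin m → ℂ), EigU m N T F lam mu →
  nU D F = 1 → Monotone (fun j => (mu j).im) →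
    Hr r D F ≤ C * (Wg (fun j => (mu j).im))⁻¹

theorem pf_K1A (hM : T_MSR) (hH : T_HAR) (hHC : T_HAC) (hPC : T_PWC) (hV : T_VLM)
    (hR : T_RTI) (hA : T_ALU) (hT : Pool.Agent.H20.GK.T_TUB) (hJ : T_JKZ) : T_K1A := by
  intro m hm1
  obtain ⟨κ, hκ⟩ := exists_kap hH hm1
  obtain ⟨r, hr, hr1, h1⟩ := k1core hH hPC hJ hm1 hκ
  obtain ⟨C, hC, h2⟩ := h1 ((m : ℝ) ^ 2)
  refine ⟨r, hr, hr1, C, hC, ?_⟩
  intro N _ T D hS F lam mu hF hn hmono
  have hnz := nz_of_one hS hn
  have h3 := h2 mu (fun j => hT m N T F lam mu hm1 hF hnz j) hmono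
  rw [Pw_Wg] at h3
  refine le_trans (le_of_eq ?_) h3
  unfold Hr
  have hmB : MeasurableSet (Bl m r) :=
    (isClosed_le (sz_cont.comp ((mt_cont (m := m)).sub continuous_const))
      continuous_const).measurableSet
  refine setIntegral_congr_fun hmB fun z hz => ?_
  have hd : (mt z).det ≠ 0 := by
    refine near_inv ?_
    have hm0 : (1 : ℝ) ≤ m := by exact_mod_cast hm1
    have h4 := fsq_le_sz (mt z - 1)
    have h5 : sz (mt z - 1) ≤ r := hz
    have h6 : 0 ≤ m * sz (mt z - 1) := mul_nonneg (by positivity) (norm_nonneg _)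
    have h7 : m * sz (mt z - 1) ≤ 1 / 4 := by
      calc m * sz (mt z - 1) ≤ m * (1 / (4 * (m : ℝ))) :=
            mul_le_mul_of_nonneg_left (h5.trans hr1) (by positivity)
        _ = 1 / 4 := by field_simp
    nlinarith
  have h4 := cf_phk hM hH hHC hPC hV hR hA hS hF hF hκ hd
  have h5 := ip_sym hV hR hA hS (EigU_ivf hF) hd
  have h6 : ip D F F = 1 := by
    have h7 : ip D F F = ((nU D F : ℝ) : ℂ) := by
      unfold ip nU
      push_cast
      refine Finset.sum_congr rfl fun x _ => ?_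
      rw [← integral_complex_ofReal]
      refine integral_congr_ae (Filter.Eventually.of_forall fun z => ?_)
      change F (mt z) x * (starRingEnd ℂ) (F (mt z) x) = ((‖F (mt z) x‖ ^ 2 : ℝ) : ℂ)
      rw [Complex.mul_conj, Complex.normSq_eq_norm_sq]
    rw [h7, hn, Complex.ofReal_one]
  change ‖ipz D F F (mt z)‖ ^ 2 = ‖phi0 κ mu (mt z)‖ ^ 2
  have h8 : ipz D F F (mt z) = ip D (tF (mt z) F) F := rfl
  rw [h8, h5, h4, h6, one_mul]

end Pool.Agent.H69.GK
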