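import Pool.Agent.H69.GK.T1

/-!
Row K1A of the page ghk, the core: the mean of the square of the average `phi0` near the unit
matrix is at most a constant times the inverse of the product of the gaps.
-/

namespace Pool.Agent.H69.GK

open MeasureTheory Pool.Agent.H34.GM Pool.Agent.H40.GHK

lemma fsq_cont {m : ℕ} : Continuous (fun z : Mat m => fsq z) := by
  unfold fsq
  refine continuous_finset_sum _ fun i _ => continuous_finset_sum _ fun j _ => ?_
  exact (continuous_id.matrix_elem i j).pow 2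

lemma fsq_le_sz {m : ℕ} (z : Mat m) : fsq z ≤ (m * sz z) ^ 2 := by
  unfold fsq
  calc ∑ i, ∑ j, z i j ^ 2 ≤ ∑ _i : Fin m, ∑ _j : Fin m, sz z ^ 2 := by
        refine Finset.sum_le_sum fun i _ => Finset.sum_le_sum fun j _ => ?_
        have h1 := sz_ent z i j
        rw [← sq_abs]
        exact pow_le_pow_left₀ (abs_nonneg _) h1 2
    _ = (m * sz z) ^ 2 := by
        simp only [Finset.sum_const, Finset.card_univ, Fintype.card_fin, nsmul_eq_mul]
        ring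

/-- matrices near the unit matrix are invertible -/
lemma near_inv {m : ℕ} {z : Mat m} (hz : fsq (z - 1) < 1) : z.det ≠ 0 := by
  intro h0
  obtain ⟨x, hx0, hx⟩ := Matrix.exists_mulVec_eq_zero_iff.mpr h0
  obtain ⟨s, hs⟩ : ∃ s : ℝ, s = ∑ i, x i ^ 2 := ⟨_, rfl⟩
  have hspos : 0 < s := by
    obtain ⟨i, hi⟩ : ∃ i, x i ≠ 0 := by
      by_contra hcon
      push Not at hcon
      exact hx0 (funext hcon)
    rw [hs]
    exact Finset.sum_pos' (fun i _ => sq_nonneg _) ⟨i, Finset.mem_univ i, by positivity⟩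
  have h1 : ∀ i, x i = -∑ j, (z - 1) i j * x j := by
    intro i
    have h2 : (z.mulVec x) i = 0 := by rw [hx]; rfl
    have h3 : ∑ j, (z - 1) i j * x j = (z.mulVec x) i - x i := by
      have h4 : ((z - 1).mulVec x) i = (z.mulVec x) i - x i := by
        rw [Matrix.sub_mulVec, Matrix.one_mulVec]
        rfl
      exact h4
    rw [h3, h2]
    ring
  have h5 : ∀ i, x i ^ 2 ≤ (∑ j, (z - 1) i j ^ 2) * s := by
    intro i
    rw [h1 i, neg_sq, hs]
    exact Finset.sum_mul_sq_le_sq_mul_sq _ _ _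
  have h6 : s ≤ fsq (z - 1) * s := by
    calc s = ∑ i, x i ^ 2 := hs
      _ ≤ ∑ i, (∑ j, (z - 1) i j ^ 2) * s := Finset.sum_le_sum fun i _ => h5 i
      _ = fsq (z - 1) * s := by rw [← Finset.sum_mul]; rfl
  nlinarith

/-- the closed ball is a compact part of `GL_m` -/
lemma ball_RR {m : ℕ} {ρ : ℝ} (hρ : 0 < ρ) (hρ1 : ρ ≤ 1 / 2) :
    ∃ c : ℝ, 0 < c ∧ ∀ z : Mat m, fsq (z - 1) ≤ ρ ^ 2 → sz z ≤ c ∧ c⁻¹ ≤ |z.det| := by
  have hcl : IsClosed {z : V m | fsq (mt z - 1) ≤ ρ ^ 2} :=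
    isClosed_le (fsq_cont.comp ((mt_cont (m := m)).sub continuous_const)) continuous_const
  have hb : ∀ z : V m, fsq (mt z - 1) ≤ ρ ^ 2 → sz (mt z) ≤ 2 := by
    intro z hz
    unfold sz
    refine (pi_norm_le_iff_of_nonneg (by norm_num)).mpr fun i => ?_
    refine (pi_norm_le_iff_of_nonneg (by norm_num)).mpr fun j => ?_
    have h1 := ent_le_fsq (mt z - 1) i j
    have h2 : Real.sqrt (fsq (mt z - 1)) ≤ ρ := by
      rw [← Real.sqrt_sq hρ.le]
      exact Real.sqrt_le_sqrt hz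
    have h3 : |(mt z) i j - (1 : Mat m) i j| ≤ 1 / 2 := (h1.trans h2).trans hρ1
    have h4 : |(1 : Mat m) i j| ≤ 1 := by
      rw [Matrix.one_apply]
      split_ifs <;> simp
    rw [Real.norm_eq_abs]
    have h5 : (mt z) i j = ((mt z) i j - (1 : Mat m) i j) + (1 : Mat m) i j := by ring
    calc |(mt z) i j| = |((mt z) i j - (1 : Mat m) i j) + (1 : Mat m) i j| := by rw [← h5]
      _ ≤ |(mt z) i j - (1 : Mat m) i j| + |(1 : Mat m) i j| := abs_add_le _ _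
      _ ≤ 1 / 2 + 1 := add_le_add h3 h4
      _ ≤ 2 := by norm_num
  have hcomp : IsCompact {z : V m | fsq (mt z - 1) ≤ ρ ^ 2} := by
    apply Metric.isCompact_of_isClosed_isBounded hcl
    apply (Metric.isBounded_closedBall (x := (0 : V m)) (r := 2)).subset
    intro z hz
    rw [mem_closedBall_zero_iff]
    exact hb z hz
  have hne : ({z : V m | fsq (mt z - 1) ≤ ρ ^ 2}).Nonempty := by
    refine ⟨fun i j => (1 : Mat m) i j, ?_⟩
    change fsq ((1 : Mat m) - 1) ≤ ρ ^ 2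
    rw [sub_self]
    have : fsq (0 : Mat m) = 0 := by unfold fsq; simp
    rw [this]
    positivity
  obtain ⟨z0, hz0, hmin⟩ := hcomp.exists_isMinOn hne
    ((det_cont.comp (mt_cont (m := m))).abs.continuousOn)
  have hd0 : 0 < |(mt z0).det| := by
    refine abs_pos.mpr (near_inv ?_)
    have h1 : fsq (mt z0 - 1) ≤ ρ ^ 2 := hz0
    nlinarith
  refine ⟨max 2 |(mt z0).det|⁻¹, lt_of_lt_of_le (by norm_num) (le_max_left _ _),
    fun z hz => ⟨(hb (fun i j => z i j) hz).trans (le_max_left _ _), ?_⟩⟩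
  have h1 : |(mt z0).det| ≤ |z.det| := hmin (a := fun i j => z i j) hz
  refine le_trans ?_ h1
  have h2 : (max 2 |(mt z0).det|⁻¹)⁻¹ ≤ (|(mt z0).det|⁻¹)⁻¹ :=
    inv_anti₀ (inv_pos.mpr hd0) (le_max_right _ _)
  rwa [inv_inv] at h2

lemma et_eq {m : ℕ} {A : ℕ} (hA : 1 ≤ A) {ρ : ℝ} (hρ : 0 < ρ) (z : Mat m) :
    et A ρ z = (max 0 (1 - fsq (z - 1) / ρ ^ 2)) ^ A := by
  have hp : 0 < ρ ^ 2 := by positivity
  unfold et
  split_ifs with h
  · rw [max_eq_right]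
    rw [sub_nonneg, div_le_one hp]
    exact h.le
  · rw [max_eq_left, zero_pow (by omega)]
    rw [sub_nonpos, one_le_div hp]
    exact not_lt.mp h

lemma et_cont {m : ℕ} {A : ℕ} (hA : 1 ≤ A) {ρ : ℝ} (hρ : 0 < ρ) :
    Continuous (fun z : Mat m => et A ρ z) := by
  simp only [et_eq hA hρ]
  exact (continuous_const.max (continuous_const.sub
    ((fsq_cont.comp (continuous_id.sub continuous_const)).div_const _))).pow A

lemma et_nn {m : ℕ} {A : ℕ} (hA : 1 ≤ A) {ρ : ℝ} (hρ : 0 < ρ) (z : Mat m) :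
    0 ≤ et A ρ z := by
  rw [et_eq hA hρ]
  exact pow_nonneg (le_max_left _ _) A

lemma et_supp {m : ℕ} {A : ℕ} {ρ : ℝ} {z : Mat m} (h : et A ρ z ≠ 0) :
    fsq (z - 1) ≤ ρ ^ 2 := by
  unfold et at h
  split_ifs at h with h1
  · exact h1.le
  · exact absurd rfl h

/-- the quotient for `w = k a` -/
lemma quo_k {m : ℕ} (mu : Fin m → ℂ) {z w k a : Mat m} (hz : z.det ≠ 0) (hw : w.det ≠ 0)
    (hk : k * k.transpose = 1) (hwa : w = k * a) (ha : ∀ i j : Fin m, j < i → a i j = 0) :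
    pw mu (z * w) / pw mu w = pw mu (z * k) := by
  have hkd : k.det ≠ 0 := by
    intro h
    apply hw
    rw [hwa, Matrix.det_mul, h, zero_mul]
  have had : a.det ≠ 0 := by
    intro h
    apply hw
    rw [hwa, Matrix.det_mul, h, mul_zero]
  rw [hwa, pw_orth mu hk, ← Matrix.mul_assoc,
    pw_mul_tri mu (by rw [Matrix.det_mul]; exact mul_ne_zero hz hkd) had ha, mul_div_assoc,
    div_self (pw_ne0 mu had), mul_one]

/-- the inner integral -/
noncomputable def Jw {m : ℕ} (A : ℕ) (ρ : ℝ) (mu : Fin m → ℂ) (w w' : Mat m) : ℂ :=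
  ∫ z : V m, ((et A ρ (mt z) : ℝ) : ℂ) * ((pw mu (mt z * w) / pw mu w) *
    (starRingEnd ℂ) (pw mu (mt z * w') / pw mu w')) ∂(hm m)

lemma Jw_eq {m : ℕ} {A : ℕ} {ρ : ℝ} (hρ : 0 < ρ) (hρ1 : ρ ≤ 1 / 2) (mu : Fin m → ℂ)
    {w w' k k' a a' : Mat m} (hw : w.det ≠ 0) (hw' : w'.det ≠ 0)
    (hk : k * k.transpose = 1) (hk' : k' * k'.transpose = 1) (hwa : w = k * a)
    (hwa' : w' = k' * a') (ha : ∀ i j : Fin m, j < i → a i j = 0)
    (ha' : ∀ i j : Fin m, j < i → a' i j = 0) :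
    Jw A ρ mu w w' = ∫ z : V m, ((et A ρ (mt z) : ℝ) : ℂ) * (pw mu (mt z * k) *
        (starRingEnd ℂ) (pw mu (mt z * k'))) ∂(hm m) := by
  unfold Jw
  refine integral_congr_ae (Filter.Eventually.of_forall fun z => ?_)
  change ((et A ρ (mt z) : ℝ) : ℂ) * ((pw mu (mt z * w) / pw mu w) *
    (starRingEnd ℂ) (pw mu (mt z * w') / pw mu w')) = ((et A ρ (mt z) : ℝ) : ℂ) *
    (pw mu (mt z * k) * (starRingEnd ℂ) (pw mu (mt z * k')))
  by_cases h : et A ρ (mt z) = 0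
  · rw [h, Complex.ofReal_zero, zero_mul, zero_mul]
  · have hz : (mt z).det ≠ 0 := near_inv (by
      have := et_supp h
      nlinarith)
    rw [quo_k mu hz hw hk hwa ha, quo_k mu hz hw' hk' hwa' ha']

/-- the bound of the inner integral against the volume -/
lemma Jw_le (hJ : T_JKZ) {m : ℕ} (hm1 : 1 ≤ m) : ∃ ρ : ℝ, 0 < ρ ∧ ρ ≤ 1 / 2 ∧
    ∀ (M R : ℝ), 1 ≤ R → ∃ C : ℝ, 0 < C ∧ ∀ mu : Fin m → ℂ, (∀ j, |(mu j).re| ≤ M) →
    Monotone (fun j => (mu j).im) → ∀ w : Mat m, w.det ≠ 0 → ∃ u : Mat m,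
      u * u.transpose = 1 ∧ ∀ w' : Mat m, sz w' ≤ R → R⁻¹ ≤ |w'.det| →
        ‖Jw (2 * (m * m)) ρ mu w w'‖ ≤ C * vk R (fun j => (mu j).im) u w' := by
  obtain ⟨ρ, hρ, hρ1, hJ1⟩ := hJ m hm1
  refine ⟨ρ, hρ, hρ1, fun M R hR => ?_⟩
  obtain ⟨C1, hC1, h1⟩ := hJ1 (2 * (m * m)) M
  obtain ⟨C2, hC2, h2⟩ := pf_FLG m R hR
  refine ⟨C1 * C2, mul_pos hC1 hC2, fun mu hM hmono w hw => ?_⟩
  obtain ⟨k, a, hk, hwa, ha, -⟩ := exists_qr w hw
  refine ⟨k.transpose, ?_, fun w' hs hd => ?_⟩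
  · rw [Matrix.transpose_transpose]
    exact mul_eq_one_comm.mp hk
  · have hw' : w'.det ≠ 0 := by
      intro h
      rw [h, abs_zero] at hd
      have : 0 < R⁻¹ := by positivity
      linarith
    obtain ⟨k', a', hk', hwa', ha', -⟩ := exists_qr w' hw'
    obtain ⟨G, hG, hE, hb⟩ := h1 mu hM hmono k k' hk hk'
    rw [Jw_eq hρ hρ1 mu hw hw' hk hk' hwa hwa' ha ha']
    have h3 := h2 (fun j => (mu j).im) hmono k k' a' hk hk' ha' (by rw [← hwa']; exact hs) G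
      hG hE
    unfold vk
    rw [if_pos ⟨hs, hd⟩]
    refine hb.trans ?_
    rw [mul_assoc]
    refine mul_le_mul_of_nonneg_left ?_ hC1.le
    rw [hwa']
    exact h3

end Pool.Agent.H69.GK
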